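import Pool.Agent.Work.MP_b29d7f_nt_helper2.PE

/-!
# The ring of integers of a function field has a pack: the finiteness hypotheses
-/

namespace Pool.Agent.Work.MP_b29d7f_nt.FF.PackFF

open IsDedekindDomain WithZero Polynomial FunctionField Module
open Pool.Agent.Work.MP_b29d7f_nt.Ded

universe u w

set_option linter.unusedSectionVars false

variable (Fq : Type w) [Field Fq] (K : Type u) [Field K] [Algebra Fq[X] K]
  [Algebra (RatFunc Fq) K] [IsScalarTower Fq[X] (RatFunc Fq) K] [FunctionField Fq K]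
  [Algebra.IsSeparable (RatFunc Fq) K]

theorem finite_degreeLT [Finite Fq] (n : ℕ) : Finite (degreeLT Fq n) :=
  Finite.of_equiv _ (degreeLTEquiv Fq n).toEquiv.symm

theorem exists_coord [Finite Fq] : ∃ (ι : Type u) (_ : Fintype ι) (b : Basis ι (RatFunc Fq) K),
    ∀ x : K, x ∈ toK K (⊤ : Ideal (ringOfIntegers Fq K)) ↔
      ∀ i, ∃ p : Fq[X], b.repr x i = algebraMap Fq[X] (RatFunc Fq) p := by
  have hfin := moduleFinite_ringOfIntegers Fq K
  have hinj := ringOfIntegers.algebraMap_injective Fq K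
  have hfs : FaithfulSMul Fq[X] (ringOfIntegers Fq K) :=
    (faithfulSMul_iff_algebraMap_injective _ _).mpr hinj
  have htf : Module.IsTorsionFree Fq[X] (ringOfIntegers Fq K) := by
    infer_instance
  have hfree : Module.Free Fq[X] (ringOfIntegers Fq K) := Module.free_of_finite_type_torsion_free'
  have hloc : IsLocalization (Algebra.algebraMapSubmonoid (ringOfIntegers Fq K)
      (nonZeroDivisors Fq[X])) K :=
    IsIntegralClosure.isLocalization Fq[X] (RatFunc Fq) K (ringOfIntegers Fq K)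
  let b := Module.Free.chooseBasis Fq[X] (ringOfIntegers Fq K)
  let bK := b.localizationLocalization (RatFunc Fq) (nonZeroDivisors Fq[X]) K
  refine ⟨Module.Free.ChooseBasisIndex Fq[X] (ringOfIntegers Fq K), inferInstance, bK, fun x => ?_⟩
  constructor
  · intro hx i
    obtain ⟨r, -, rfl⟩ := mem_toK.mp hx
    exact ⟨b.repr r i, Basis.localizationLocalization_repr_algebraMap _ _ _ _ _ _⟩
  · intro h
    choose p hp using h
    refine mem_toK.mpr ⟨∑ i, p i • b i, trivial, ?_⟩
    rw [← bK.sum_repr x, map_sum]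
    refine Finset.sum_congr rfl fun i _ => ?_
    rw [hp i]
    have h1 : bK i = algebraMap (ringOfIntegers Fq K) K (b i) :=
      Basis.localizationLocalization_apply _ _ _ _ _
    rw [h1, algebraMap_smul, Algebra.smul_def, Algebra.smul_def, map_mul]
    rfl

section basis

variable {Fq K} {ι : Type u} [Fintype ι] (b : Basis ι (RatFunc Fq) K)

/-- the lattice of elements with coordinates of bounded degree -/
def lat (N : ℤ) : Submodule (Oinf Fq) K where
  carrier := {x | ∀ i, vi Fq (b.repr x i) ≤ exp N}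
  zero_mem' := fun i => by rw [map_zero, Finsupp.zero_apply, map_zero]; exact zero_le
  add_mem' := fun {x y} hx hy i => by
    rw [map_add, Finsupp.add_apply]
    exact (Valuation.map_add _ _ _).trans (max_le (hx i) (hy i))
  smul_mem' := fun a x hx i => by
    have h1 : a • x = (a : RatFunc Fq) • x := rfl
    rw [h1, map_smul, Finsupp.smul_apply, smul_eq_mul, map_mul]
    have h2 : vi Fq (a : RatFunc Fq) ≤ 1 := (mem_Oinf_iff Fq).mp a.2
    calc _ ≤ 1 * vi Fq (b.repr x i) := mul_le_mul_left h2 _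
      _ ≤ exp N := by rw [one_mul]; exact hx i

theorem exists_N₀ : ∃ N : ℕ, ∀ x : Rinf Fq K, (x : K) ∈ lat b N := by
  classical
  obtain ⟨s, hs⟩ := (finite_Rinf Fq K).fg_top
  let N : ℕ := ∑ y ∈ s, ∑ i, (log (vi Fq (b.repr (y : K) i))).toNat
  refine ⟨N, fun x => ?_⟩
  have hx : x ∈ Submodule.span (Oinf Fq) (s : Set (Rinf Fq K)) := by rw [hs]; trivial
  have hle : Submodule.span (Oinf Fq) (s : Set (Rinf Fq K)) ≤
      (lat b N).comap (Rinf Fq K).val.toLinearMap := by
    rw [Submodule.span_le]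
    intro y hy i
    change vi Fq (b.repr (y : K) i) ≤ exp (N : ℤ)
    apply le_exp_of_log_le
    refine (Int.self_le_toNat _).trans ?_
    norm_cast
    refine le_trans ?_ (Finset.single_le_sum
      (f := fun y : Rinf Fq K => ∑ i, (log (vi Fq (b.repr (y : K) i))).toNat)
      (fun _ _ => Nat.zero_le _) hy)
    exact Finset.single_le_sum (f := fun i => (log (vi Fq (b.repr (y : K) i))).toNat)
      (fun _ _ => Nat.zero_le _) (Finset.mem_univ i)
  exact hle hx

/-- `t^M` bounds the box -/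
theorem exists_M (m : HeightOneSpectrum (Rinf Fq K) → ℤ) : ∃ M : ℕ, ∀ x : K, x ∈ J (Rinf Fq K) m →
    ∃ y : Rinf Fq K, x = (tK Fq K) ^ M * y := by
  have := Fintype.ofFinite (HeightOneSpectrum (Rinf Fq K))
  refine ⟨∑ v : HeightOneSpectrum (Rinf Fq K), (m v).toNat, fun x hx => ?_⟩
  set M := ∑ v : HeightOneSpectrum (Rinf Fq K), (m v).toNat with hM
  have ht := tK_ne Fq K
  have hMv : ∀ v, m v ≤ M := by
    intro v
    refine (Int.self_le_toNat _).trans ?_
    rw [hM]
    norm_cast
    exact Finset.single_le_sum (f := fun v : HeightOneSpectrum (Rinf Fq K) => (m v).toNat)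
      (fun _ _ => Nat.zero_le _) (Finset.mem_univ v)
  obtain ⟨y, hy⟩ := HeightOneSpectrum.mem_integers_of_valuation_le_one K
    ((tK Fq K)⁻¹ ^ M * x) (R := Rinf Fq K) (fun v => by
      by_cases hx0 : x = 0
      · rw [hx0, mul_zero, map_zero]; exact zero_le
      · rw [← exp_zero, val_le_iff v (mul_ne_zero (pow_ne_zero _ (inv_ne_zero ht)) hx0),
          lv_mul v (pow_ne_zero _ (inv_ne_zero ht)) hx0, ← zpow_natCast, lv_zpow, lv_inv]
        have h1 := (val_le_iff v hx0).mp (hx v)
        have h2 := one_le_lv Fq K v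
        have h3 := hMv v
        have h4 : (0 : ℤ) ≤ M := Int.natCast_nonneg _
        nlinarith)
  refine ⟨y, ?_⟩
  change (y : K) = _ at hy
  rw [hy, ← mul_assoc, ← mul_pow, mul_inv_cancel₀ ht, one_pow, one_mul]

theorem repr_tK_mul (M : ℕ) (x : K) (i : ι) :
    b.repr ((tK Fq K) ^ M * x) i = RatFunc.X ^ M * b.repr x i := by
  have h1 : (tK Fq K) ^ M * x = (RatFunc.X ^ M : RatFunc Fq) • x := by
    rw [Algebra.smul_def, map_pow]; rfl
  rw [h1, map_smul, Finsupp.smul_apply, smul_eq_mul]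

theorem finite_inter [Finite Fq]
    (hb : ∀ x : K, x ∈ toK K (⊤ : Ideal (ringOfIntegers Fq K)) ↔
      ∀ i, ∃ p : Fq[X], b.repr x i = algebraMap Fq[X] (RatFunc Fq) p)
    (m : HeightOneSpectrum (Rinf Fq K) → ℤ) :
    Finite ↥(toK K (⊤ : Ideal (ringOfIntegers Fq K)) ⊓ J (Rinf Fq K) m) := by
  classical
  obtain ⟨N, hN⟩ := exists_N₀ (Fq := Fq) (K := K) b
  obtain ⟨M, hM⟩ := exists_M (Fq := Fq) (K := K) m
  have hfin := finite_degreeLT Fq (M + N + 1)
  have key : ∀ x : ↥(toK K (⊤ : Ideal (ringOfIntegers Fq K)) ⊓ J (Rinf Fq K) m), ∀ i,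
      ∃ p : degreeLT Fq (M + N + 1), b.repr (x : K) i = algebraMap Fq[X] (RatFunc Fq) p := by
    rintro ⟨x, hx1, hx2⟩ i
    obtain ⟨p, hp⟩ := (hb x).mp hx1 i
    obtain ⟨y, rfl⟩ := hM x hx2
    have h1 : vi Fq (algebraMap Fq[X] (RatFunc Fq) p) ≤ exp ((M : ℤ) + N) := by
      rw [← hp, repr_tK_mul, map_mul, map_pow, vi_X, exp_add]
      have h2 : (exp 1 : ℤᵐ⁰) ^ M = exp (M : ℤ) := by
        rw [← exp_nsmul]; simp
      rw [h2]
      exact mul_le_mul_right (hN y i) _
    have h3 := natDegree_le_of_vi Fq h1 (by positivity)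
    refine ⟨⟨p, ?_⟩, hp⟩
    rw [mem_degreeLT]
    refine lt_of_le_of_lt degree_le_natDegree ?_
    have : p.natDegree < M + N + 1 := by
      have : (p.natDegree : ℤ) ≤ M + N := h3
      omega
    exact_mod_cast this
  choose f hf using key
  refine Finite.of_injective (β := ι → degreeLT Fq (M + N + 1)) f ?_
  intro x y hxy
  apply Subtype.ext
  apply b.ext_elem
  intro i
  rw [hf x i, hf y i, hxy]

theorem ho_ne_zero [Finite Fq]
    (hb : ∀ x : K, x ∈ toK K (⊤ : Ideal (ringOfIntegers Fq K)) ↔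
      ∀ i, ∃ p : Fq[X], b.repr x i = algebraMap Fq[X] (RatFunc Fq) p)
    (m : HeightOneSpectrum (Rinf Fq K) → ℤ) :
    ho (toK K (⊤ : Ideal (ringOfIntegers Fq K))) (J (Rinf Fq K) m) ≠ 0 := by
  classical
  have := Fintype.ofFinite (HeightOneSpectrum (Rinf Fq K))
  have ht := tK_ne Fq K
  obtain ⟨N, hN⟩ : ∃ N : ℕ, ∀ (v : HeightOneSpectrum (Rinf Fq K)) (i : ι),
      lv v (b i) - m v ≤ N := by
    refine ⟨∑ v : HeightOneSpectrum (Rinf Fq K), ∑ i, (lv v (b i) - m v).toNat, fun v i => ?_⟩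
    refine (Int.self_le_toNat _).trans ?_
    norm_cast
    refine le_trans ?_ (Finset.single_le_sum
      (f := fun v : HeightOneSpectrum (Rinf Fq K) => ∑ i, (lv v (b i) - m v).toNat)
      (fun _ _ => Nat.zero_le _) (Finset.mem_univ v))
    exact Finset.single_le_sum (f := fun i => (lv v (b i) - m v).toNat)
      (fun _ _ => Nat.zero_le _) (Finset.mem_univ i)
  have hfin := finite_degreeLT Fq N
  let L : AddSubgroup K := toK K (⊤ : Ideal (ringOfIntegers Fq K)) ⊔ J (Rinf Fq K) m
  let f : (ι → degreeLT Fq N) → K ⧸ L := fun p =>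
    QuotientAddGroup.mk (∑ i, ((RatFunc.X : RatFunc Fq) ^ N)⁻¹ • (algebraMap Fq[X] (RatFunc Fq) (p i : Fq[X])) • b i)
  have hsurj : Function.Surjective f := by
    intro c
    obtain ⟨x, rfl⟩ := QuotientAddGroup.mk_surjective c
    choose g hg using fun i => exists_poly_part Fq (RatFunc.X ^ N * b.repr x i)
    have hXm : (Polynomial.X ^ N : Fq[X]).Monic := monic_X_pow N
    refine ⟨fun i => ⟨g i %ₘ Polynomial.X ^ N, ?_⟩, ?_⟩
    · rw [mem_degreeLT]
      have := degree_modByMonic_lt (g i) hXm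
      rwa [degree_X_pow] at this
    · refine QuotientAddGroup.eq.mpr ?_
      -- the difference
      have hX : (RatFunc.X ^ N : RatFunc Fq) ≠ 0 := pow_ne_zero _ RatFunc.X_ne_zero
      have hdec : ∀ i, b.repr x i = ((RatFunc.X : RatFunc Fq) ^ N)⁻¹ * algebraMap Fq[X] (RatFunc Fq) (g i %ₘ Polynomial.X ^ N) +
          algebraMap Fq[X] (RatFunc Fq) (g i /ₘ Polynomial.X ^ N) +
          (RatFunc.X ^ N)⁻¹ * (RatFunc.X ^ N * b.repr x i - algebraMap Fq[X] (RatFunc Fq) (g i)) := by
        intro i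
        have h1 := modByMonic_add_div (g i) (Polynomial.X ^ N : Fq[X])
        have h2 : algebraMap Fq[X] (RatFunc Fq) (g i) =
            algebraMap Fq[X] (RatFunc Fq) (g i %ₘ Polynomial.X ^ N) +
            RatFunc.X ^ N * algebraMap Fq[X] (RatFunc Fq) (g i /ₘ Polynomial.X ^ N) := by
          conv_lhs => rw [← h1]
          rw [map_add, map_mul, map_pow, RatFunc.algebraMap_X]
        rw [h2]
        field_simp
        ring
      have hx : -(∑ i, ((RatFunc.X : RatFunc Fq) ^ N)⁻¹ •
            (algebraMap Fq[X] (RatFunc Fq) (g i %ₘ Polynomial.X ^ N)) • b i) + x =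
          (∑ i, algebraMap Fq[X] (RatFunc Fq) (g i /ₘ Polynomial.X ^ N) • b i) +
          ∑ i, (((RatFunc.X : RatFunc Fq) ^ N)⁻¹ * ((RatFunc.X : RatFunc Fq) ^ N * b.repr x i -
            algebraMap Fq[X] (RatFunc Fq) (g i))) • b i := by
        conv_lhs => rw [← b.sum_repr x]
        rw [neg_add_eq_iff_eq_add, ← Finset.sum_add_distrib, ← Finset.sum_add_distrib]
        refine Finset.sum_congr rfl fun i _ => ?_
        rw [smul_smul, ← add_smul, ← add_smul, ← add_assoc]
        conv_lhs => rw [hdec i]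
      rw [hx]
      refine add_mem (AddSubgroup.mem_sup_left ?_) (AddSubgroup.mem_sup_right ?_)
      · rw [hb]
        intro i
        refine ⟨g i /ₘ Polynomial.X ^ N, ?_⟩
        rw [b.repr_sum_self]
      · intro v
        refine Valuation.map_sum_le _ fun i _ => ?_
        have hbi : b i ≠ 0 := b.ne_zero i
        have e1 : algebraMap (RatFunc Fq) K ((RatFunc.X ^ N)⁻¹) = (tK Fq K) ^ (-(N : ℤ)) := by
          rw [map_inv₀, map_pow, zpow_neg, zpow_natCast]; rfl
        rw [Algebra.smul_def, map_mul, map_mul (algebraMap (RatFunc Fq) K), e1, map_mul,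
          val_eq v (zpow_ne_zero _ ht), val_eq v hbi, lv_zpow]
        have h2 := one_le_lv Fq K v
        have h3 := hN v i
        have h4 := val_Oinf_le Fq K v (hg i)
        have h5 : (0 : ℤ) ≤ N := Int.natCast_nonneg _
        calc _ ≤ exp (-(N : ℤ) * lv v (tK Fq K)) * 1 * exp (lv v (b i)) :=
              mul_le_mul_left (mul_le_mul_right h4 _) _
          _ = exp (-(N : ℤ) * lv v (tK Fq K) + lv v (b i)) := by rw [mul_one, ← exp_add]
          _ ≤ exp (m v) := by
            rw [exp_le_exp]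
            nlinarith
  have : Finite (K ⧸ L) := Finite.of_surjective f hsurj
  unfold ho
  exact Nat.card_pos.ne'

end basis

theorem hyp [Finite Fq] : Hyp K (ringOfIntegers Fq K) (Rinf Fq K) := by
  obtain ⟨ι, _, b, hb⟩ := exists_coord Fq K
  exact ⟨nonempty_places Fq K, ho_ne_zero b hb, finite_inter b hb⟩

end Pool.Agent.Work.MP_b29d7f_nt.FF.PackFF

namespace Pool.Agent.Work.MP_b29d7f_nt.FF

open IsDedekindDomain Polynomial FunctionField PackFF
open Pool.Agent.Work.MP_b29d7f_nt.Ded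

universe u w

/-- FFPACK -/
theorem stmt_FFPack : Stmt_FFPack.{u, w} := by
  intro Fq _ _ K _ _ _ _ _ _
  have h1 := hasFiniteQuotients_ringOfIntegers Fq K
  have h2 := Fintype.ofFinite (HeightOneSpectrum (Rinf Fq K))
  exact ⟨HeightOneSpectrum (Rinf Fq K), h2, nonempty_places Fq K, exists_pack (hyp Fq K)⟩

end Pool.Agent.Work.MP_b29d7f_nt.FF
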