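import Mathlib

/-!
# Index calculus for pairs of additive subgroups of a field
-/

namespace Pool.Agent.Work.MP_b29d7f_nt.FF.PackFF

variable {G : Type*} [AddCommGroup G]

/-- cardinality of the intersection -/
noncomputable def hz (I J : AddSubgroup G) : ℕ := Nat.card ↥(I ⊓ J)

/-- index of the sum -/
noncomputable def ho (I J : AddSubgroup G) : ℕ := (I ⊔ J).index

theorem hz_comm (I J : AddSubgroup G) : hz I J = hz J I := by
  unfold hz; rw [inf_comm]

theorem ho_comm (I J : AddSubgroup G) : ho I J = ho J I := by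
  unfold ho; rw [sup_comm]

theorem card_relIndex {H K : AddSubgroup G} (h : H ≤ K) :
    H.relIndex K * Nat.card H = Nat.card K := by
  have h1 := AddSubgroup.relIndex_mul_relIndex (H := ⊥) (K := H) (L := K) bot_le h
  rw [AddSubgroup.relIndex_bot_left, AddSubgroup.relIndex_bot_left] at h1
  rw [mul_comm]; exact h1

theorem calculus {I' I : AddSubgroup G} (J : AddSubgroup G) (h : I' ≤ I) :
    hz I J * ho I' J = hz I' J * I'.relIndex I * ho I J := by
  have e1 : (I' ⊔ J).relIndex (I ⊔ J) * (I ⊔ J).index = (I' ⊔ J).index :=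
    AddSubgroup.relIndex_mul_index (sup_le_sup_right h J)
  have e2 : (I' ⊔ J).relIndex (I ⊔ J) = (I' ⊔ J).relIndex I := by
    have : I ⊔ J = I ⊔ (I' ⊔ J) := by
      rw [← sup_assoc, sup_eq_left.mpr h]
    rw [this, AddSubgroup.relIndex_sup_right]
  have e3 : (I' ⊔ J).relIndex I = (I' ⊔ J ⊓ I).relIndex I := by
    rw [← AddSubgroup.inf_relIndex_right, sup_inf_assoc_of_le J h]
  have e4 : I'.relIndex (I' ⊔ J ⊓ I) * (I' ⊔ J ⊓ I).relIndex I = I'.relIndex I :=
    AddSubgroup.relIndex_mul_relIndex _ _ _ le_sup_left (sup_le h inf_le_right)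
  have e5 : I'.relIndex (I' ⊔ J ⊓ I) = (I' ⊓ J).relIndex (I ⊓ J) := by
    rw [AddSubgroup.relIndex_sup_left, ← AddSubgroup.inf_relIndex_right, inf_comm J I,
      ← inf_assoc, inf_eq_left.mpr h]
  have e6 : (I' ⊓ J).relIndex (I ⊓ J) * Nat.card ↥(I' ⊓ J) = Nat.card ↥(I ⊓ J) :=
    card_relIndex (inf_le_inf_right J h)
  unfold hz ho
  rw [← e1, e2, e3, ← e6, ← e4, e5]
  ring

theorem hz_map {f : G →+ G} (hf : Function.Injective f) (I J : AddSubgroup G) :
    hz (I.map f) (J.map f) = hz I J := by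
  unfold hz
  rw [← AddSubgroup.map_inf _ _ _ hf]
  exact (Nat.card_congr (AddSubgroup.equivMapOfInjective _ f hf).toEquiv).symm

theorem ho_map {f : G →+ G} (hf : Function.Bijective f) (I J : AddSubgroup G) :
    ho (I.map f) (J.map f) = ho I J := by
  unfold ho
  rw [← AddSubgroup.map_sup, AddSubgroup.index_map_of_bijective hf]

/-- the characteristic of the pair: `|I ∩ J| / |G / (I + J)|` -/
noncomputable def X (I J : AddSubgroup G) : ℝ := (hz I J : ℝ) / ho I J

theorem X_comm (I J : AddSubgroup G) : X I J = X J I := by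
  unfold X; rw [hz_comm, ho_comm]

theorem X_left {I' I : AddSubgroup G} (J : AddSubgroup G) (h : I' ≤ I) (h1 : ho I' J ≠ 0)
    (h2 : ho I J ≠ 0) : X I J = X I' J * I'.relIndex I := by
  have h3 := calculus J h
  unfold X
  have h1' : (ho I' J : ℝ) ≠ 0 := Nat.cast_ne_zero.mpr h1
  have h2' : (ho I J : ℝ) ≠ 0 := Nat.cast_ne_zero.mpr h2
  have h3' : (hz I J : ℝ) * ho I' J = hz I' J * I'.relIndex I * ho I J := by exact_mod_cast h3
  rw [div_mul_eq_mul_div, div_eq_div_iff h2' h1', h3']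

theorem X_right {J' J : AddSubgroup G} (I : AddSubgroup G) (h : J' ≤ J) (h1 : ho I J' ≠ 0)
    (h2 : ho I J ≠ 0) : X I J = X I J' * J'.relIndex J := by
  rw [X_comm I J, X_comm I J']
  rw [ho_comm] at h1 h2
  exact X_left I h h1 h2

/-- finiteness of `ho` goes up -/
theorem ho_ne_zero_of_le {I' I J' J : AddSubgroup G} (hI : I' ≤ I) (hJ : J' ≤ J)
    (h : ho I' J' ≠ 0) : ho I J ≠ 0 := by
  unfold ho at *
  have h1 := AddSubgroup.index_dvd_of_le (sup_le_sup hI hJ)
  intro h2
  rw [h2, zero_dvd_iff] at h1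
  exact h h1

theorem relIndex_ne_zero_of {I' I : AddSubgroup G} (J : AddSubgroup G) (h : I' ≤ I)
    (h1 : ho I' J ≠ 0) (h2 : hz I J ≠ 0) : I'.relIndex I ≠ 0 := by
  intro h3
  have h4 := calculus J h
  rw [h3, mul_zero, zero_mul] at h4
  exact (mul_ne_zero h2 h1) h4

end Pool.Agent.Work.MP_b29d7f_nt.FF.PackFF
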