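import Pool.Agent.Work.MP_b29d7f_nt_helper2.PA
import Pool.Agent.Work.MP_b29d7f_nt.FF.Defs

/-!
# Two complementary Dedekind domains in a field: levels and boxes
-/

namespace Pool.Agent.Work.MP_b29d7f_nt.FF.PackFF

open IsDedekindDomain WithZero

universe u

set_option linter.unusedSectionVars false

section one

variable {K : Type u} [Field K] {R : Type u} [CommRing R] [IsDedekindDomain R] [Algebra R K]
  [IsFractionRing R K]

/-- the level (order of the pole) -/
noncomputable def lv (v : HeightOneSpectrum R) (x : K) : ℤ := log (v.valuation K x)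

theorem lv_mul (v : HeightOneSpectrum R) {x y : K} (hx : x ≠ 0) (hy : y ≠ 0) :
    lv v (x * y) = lv v x + lv v y := by
  unfold lv
  rw [map_mul, log_mul ((Valuation.ne_zero_iff _).mpr hx) ((Valuation.ne_zero_iff _).mpr hy)]

theorem val_le_iff (v : HeightOneSpectrum R) {x : K} (hx : x ≠ 0) {m : ℤ} :
    v.valuation K x ≤ exp m ↔ lv v x ≤ m := by
  unfold lv
  rw [log_le_iff_le_exp ((Valuation.ne_zero_iff _).mpr hx)]

theorem val_le_iff' (v : HeightOneSpectrum R) {x : K} {m : ℤ} :
    v.valuation K x ≤ exp m ↔ x = 0 ∨ lv v x ≤ m := by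
  by_cases hx : x = 0
  · rw [hx, map_zero]; simp
  · rw [val_le_iff v hx]; simp [hx]

theorem val_eq (v : HeightOneSpectrum R) {x : K} (hx : x ≠ 0) :
    v.valuation K x = exp (lv v x) := by
  unfold lv
  rw [exp_log ((Valuation.ne_zero_iff _).mpr hx)]

theorem lv_add (v : HeightOneSpectrum R) {x y : K} (hx : x ≠ 0) (hy : y ≠ 0) (hxy : x + y ≠ 0) :
    lv v (x + y) ≤ max (lv v x) (lv v y) := by
  rw [← val_le_iff v hxy]
  refine (Valuation.map_add _ x y).trans ?_
  rw [val_eq v hx, val_eq v hy]
  refine max_le ?_ ?_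
  · exact exp_le_exp.mpr (le_max_left _ _)
  · exact exp_le_exp.mpr (le_max_right _ _)

theorem lv_one (v : HeightOneSpectrum R) : lv v (1 : K) = 0 := by
  unfold lv; rw [map_one]; rfl

theorem lv_zpow (v : HeightOneSpectrum R) {x : K} (n : ℤ) : lv v (x ^ n) = n * lv v x := by
  unfold lv
  rw [map_zpow₀]
  simp

theorem lv_inv (v : HeightOneSpectrum R) {x : K} : lv v (x⁻¹) = - lv v x := by
  rw [← zpow_neg_one, lv_zpow]; ring

variable (R) in
/-- the box -/
def J (m : HeightOneSpectrum R → ℤ) : AddSubgroup K where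
  carrier := {x | ∀ v : HeightOneSpectrum R, v.valuation K x ≤ exp (m v)}
  zero_mem' := fun v => by rw [map_zero]; exact zero_le
  add_mem' := fun {a b} ha hb v => (Valuation.map_add _ a b).trans (max_le (ha v) (hb v))
  neg_mem' := fun {a} ha v => by rw [Valuation.map_neg]; exact ha v

theorem mem_J {m : HeightOneSpectrum R → ℤ} {x : K} :
    x ∈ J R m ↔ ∀ v : HeightOneSpectrum R, v.valuation K x ≤ exp (m v) := Iff.rfl

theorem J_mono {m m' : HeightOneSpectrum R → ℤ} (h : m ≤ m') : (J R m : AddSubgroup K) ≤ J R m' :=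
  fun _ hx v => (hx v).trans (exp_le_exp.mpr (h v))

/-- an ideal as additive subgroup of `K` -/
def toK (K : Type u) [Field K] [Algebra R K] (I : Ideal R) : AddSubgroup K :=
  I.toAddSubgroup.map (algebraMap R K).toAddMonoidHom

theorem mem_toK {I : Ideal R} {x : K} : x ∈ toK K I ↔ ∃ r ∈ I, algebraMap R K r = x := by
  unfold toK
  rw [AddSubgroup.mem_map]
  rfl

theorem algebraMap_mem_toK {I : Ideal R} {r : R} : algebraMap R K r ∈ toK K I ↔ r ∈ I := by
  rw [mem_toK]
  constructor
  · rintro ⟨s, hs, h⟩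
    rwa [← IsFractionRing.injective R K h]
  · exact fun h => ⟨r, h, rfl⟩

theorem toK_mono {I I' : Ideal R} (h : I ≤ I') : toK K I ≤ toK K I' :=
  AddSubgroup.map_mono h

theorem toK_top : (toK K (⊤ : Ideal R)) = J R 0 := by
  ext x
  rw [mem_toK, mem_J]
  constructor
  · rintro ⟨r, -, rfl⟩ v
    exact HeightOneSpectrum.valuation_le_one v r
  · intro h
    obtain ⟨r, hr⟩ := HeightOneSpectrum.mem_integers_of_valuation_le_one K x (R := R)
      (fun v => by simpa using h v)
    exact ⟨r, trivial, hr⟩

open scoped Classical in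
theorem toK_prime (v : HeightOneSpectrum R) :
    (toK K v.asIdeal) = J R (fun w => if w = v then -1 else 0) := by
  ext x
  rw [mem_toK, mem_J]
  constructor
  · rintro ⟨r, hr, rfl⟩ w
    by_cases hw : w = v
    · subst hw
      rw [if_pos rfl, HeightOneSpectrum.valuation_of_algebraMap]
      have := (HeightOneSpectrum.intValuation_le_pow_iff_mem w r 1).mpr (by simpa using hr)
      simpa using this
    · rw [if_neg hw]
      exact HeightOneSpectrum.valuation_le_one w r
  · intro h
    obtain ⟨r, hr⟩ := HeightOneSpectrum.mem_integers_of_valuation_le_one K x (R := R) (fun w => by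
      have := h w
      split_ifs at this
      · refine this.trans ?_
        rw [← exp_zero, exp_le_exp]; norm_num
      · simpa using this)
    refine ⟨r, ?_, hr⟩
    have h1 := h v
    rw [if_pos rfl, ← hr, HeightOneSpectrum.valuation_of_algebraMap] at h1
    have := (HeightOneSpectrum.intValuation_le_pow_iff_mem v r 1).mp (by simpa using h1)
    simpa using this

theorem relIndex_toK (I : Ideal R) :
    (toK K I).relIndex (toK K (⊤ : Ideal R)) = Nat.card (R ⧸ I) := by
  unfold toK
  rw [AddSubgroup.relIndex_map_map_of_injective _ _ (IsFractionRing.injective R K)]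
  have : (⊤ : Ideal R).toAddSubgroup = ⊤ := rfl
  rw [this, AddSubgroup.relIndex_top_right]
  rfl

/-- multiplication -/
def mulK (z : K) : K →+ K := AddMonoidHom.mulLeft z

theorem mulK_bijective {z : K} (hz : z ≠ 0) : Function.Bijective (mulK z) :=
  mulLeft_bijective₀ z hz

theorem mem_map_mulK {z : K} (hz : z ≠ 0) {I : AddSubgroup K} {x : K} :
    x ∈ I.map (mulK z) ↔ z⁻¹ * x ∈ I := by
  rw [AddSubgroup.mem_map]
  constructor
  · rintro ⟨y, hy, rfl⟩
    change z⁻¹ * (z * y) ∈ I
    rwa [inv_mul_cancel_left₀ hz]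
  · intro h
    exact ⟨_, h, mul_inv_cancel_left₀ hz x⟩

theorem J_map {z : K} (hz : z ≠ 0) (m : HeightOneSpectrum R → ℤ) :
    (J R m).map (mulK z) = J R (fun v => m v + lv v z) := by
  ext x
  rw [mem_map_mulK hz, mem_J, mem_J]
  refine forall_congr' fun v => ?_
  by_cases hx : x = 0
  · rw [hx, mul_zero, map_zero]; simp
  · rw [val_le_iff v (mul_ne_zero (inv_ne_zero hz) hx), val_le_iff v hx,
      lv_mul v (inv_ne_zero hz) hx, lv_inv]
    constructor <;> intro h <;> linarith

theorem toK_map {x : R} (hx : x ≠ 0) :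
    (toK K (⊤ : Ideal R)).map (mulK (algebraMap R K x)) = toK K (Ideal.span {x}) := by
  have hx' : algebraMap R K x ≠ 0 := by
    rwa [Ne, FaithfulSMul.algebraMap_eq_zero_iff]
  ext y
  rw [mem_map_mulK hx', mem_toK, mem_toK]
  constructor
  · rintro ⟨r, -, hr⟩
    refine ⟨x * r, Ideal.mul_mem_right _ _ (Ideal.mem_span_singleton_self x), ?_⟩
    rw [map_mul, hr, mul_inv_cancel_left₀ hx']
  · rintro ⟨r, hr, rfl⟩
    obtain ⟨s, rfl⟩ := Ideal.mem_span_singleton.mp hr
    refine ⟨s, trivial, ?_⟩
    rw [map_mul, inv_mul_cancel_left₀ hx']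

theorem relIndex_map_mulK {z : K} (hz : z ≠ 0) (I J : AddSubgroup K) :
    (I.map (mulK z)).relIndex (J.map (mulK z)) = I.relIndex J :=
  AddSubgroup.relIndex_map_map_of_injective _ _ (mulK_bijective hz).1

end one

/-! ### principal boxes -/

section pid

variable {K : Type u} [Field K] {R : Type u} [CommRing R] [IsDedekindDomain R] [Algebra R K]
  [IsFractionRing R K] [Finite (HeightOneSpectrum R)]

theorem isPID : IsPrincipalIdealRing R := by
  classical
  apply IsPrincipalIdealRing.of_finite_primes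
  refine Set.Finite.subset ((Set.finite_range fun v : HeightOneSpectrum R => v.asIdeal).union
    (Set.finite_singleton (⊥ : Ideal R))) ?_
  intro I hI
  by_cases h : I = ⊥
  · exact Or.inr h
  · exact Or.inl ⟨⟨I, hI, h⟩, rfl⟩

open scoped Classical in
theorem exists_unif (v : HeightOneSpectrum R) :
    ∃ ϖ : K, ϖ ≠ 0 ∧ ∀ w : HeightOneSpectrum R, lv w ϖ = if w = v then -1 else 0 := by
  have := isPID (R := R)
  obtain ⟨r, hr⟩ := (IsPrincipalIdealRing.principal v.asIdeal).principal
  have hr0 : r ≠ 0 := by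
    rintro rfl
    exact v.ne_bot (by rw [hr]; simp)
  have hr0' : algebraMap R K r ≠ 0 := by
    rwa [Ne, FaithfulSMul.algebraMap_eq_zero_iff]
  refine ⟨algebraMap R K r, hr0', fun w => ?_⟩
  by_cases hw : w = v
  · subst hw
    rw [if_pos rfl]
    unfold lv
    rw [HeightOneSpectrum.valuation_of_algebraMap, HeightOneSpectrum.intValuation_singleton w hr0 hr]
    rfl
  · rw [if_neg hw]
    have h1 : w.valuation K (algebraMap R K r) = 1 := by
      rw [HeightOneSpectrum.valuation_eq_one_iff_notMem]
      intro hmem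
      apply hw
      have h2 : v.asIdeal ≤ w.asIdeal := by
        rw [hr]
        exact (Ideal.span_singleton_le_iff_mem _).mpr hmem
      have h3 := v.isMaximal.eq_of_le w.isPrime.ne_top h2
      exact HeightOneSpectrum.ext h3.symm
    unfold lv
    rw [h1]; rfl

theorem exists_lv_eq (m : HeightOneSpectrum R → ℤ) :
    ∃ z : K, z ≠ 0 ∧ ∀ v : HeightOneSpectrum R, lv v z = m v := by
  classical
  have := Fintype.ofFinite (HeightOneSpectrum R)
  choose ϖ h0 h1 using fun v : HeightOneSpectrum R => exists_unif (K := K) v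
  refine ⟨∏ v, ϖ v ^ (- m v), Finset.prod_ne_zero_iff.mpr fun v _ => zpow_ne_zero _ (h0 v),
    fun w => ?_⟩
  have key : ∀ s : Finset (HeightOneSpectrum R), lv w (∏ v ∈ s, ϖ v ^ (- m v)) =
      ∑ v ∈ s, (if w = v then m v else 0) := by
    intro s
    induction s using Finset.induction with
    | empty => rw [Finset.prod_empty, Finset.sum_empty, lv_one]
    | insert a s has ih =>
      rw [Finset.prod_insert has, Finset.sum_insert has,
        lv_mul w (zpow_ne_zero _ (h0 a)) (Finset.prod_ne_zero_iff.mpr fun v _ =>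
          zpow_ne_zero _ (h0 v)), ih, lv_zpow, h1]
      split_ifs <;> ring
  rw [key]
  simp

theorem relIndex_J [DecidableEq (HeightOneSpectrum R)] (m : HeightOneSpectrum R → ℤ)
    (v : HeightOneSpectrum R) :
    (J R m : AddSubgroup K).relIndex (J R (m + Pi.single v 1)) = Nat.card (R ⧸ v.asIdeal) := by
  obtain ⟨z, hz, h⟩ := exists_lv_eq (K := K) (m + Pi.single v 1)
  have h1 : (J R (m + Pi.single v 1) : AddSubgroup K) = (J R 0).map (mulK z) := by
    rw [J_map hz]
    congr 1
    ext w
    rw [h]; simp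
  have h2 : (J R m : AddSubgroup K) = (toK K v.asIdeal).map (mulK z) := by
    rw [toK_prime, J_map hz]
    congr 1
    ext w
    rw [h]
    by_cases hw : w = v
    · subst hw; simp
    · simp [hw]
  rw [h1, h2, relIndex_map_mulK hz, ← toK_top, relIndex_toK]

end pid

end Pool.Agent.Work.MP_b29d7f_nt.FF.PackFF
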