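import Pool.Agent.Work.MP_b29d7f_nt_helper2.PB

/-!
# Two complementary Dedekind domains in a field: constants and characteristic
-/

namespace Pool.Agent.Work.MP_b29d7f_nt.FF.PackFF

open IsDedekindDomain WithZero

universe u

set_option linter.unusedSectionVars false

variable {K : Type u} [Field K]

theorem exists_pow (k : Subfield K) [Finite k] {I J : AddSubgroup K}
    (hI : ∀ c ∈ k, ∀ x ∈ I, c * x ∈ I) (hJ : ∀ c ∈ k, ∀ x ∈ J, c * x ∈ J)
    (h : I.relIndex J ≠ 0) : ∃ n : ℕ, I.relIndex J = Nat.card k ^ n := by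
  let SI : Submodule k K := { I with smul_mem' := fun c x hx => hI c c.2 x hx }
  let SJ : Submodule k K := { J with smul_mem' := fun c x hx => hJ c c.2 x hx }
  have h1 : I.relIndex J = Nat.card (SJ ⧸ SI.submoduleOf SJ) := rfl
  rw [h1] at h ⊢
  have : Finite (SJ ⧸ SI.submoduleOf SJ) := Nat.finite_of_card_ne_zero h
  have : Module.Finite k (SJ ⧸ SI.submoduleOf SJ) := Module.Finite.of_finite
  exact ⟨_, Module.natCard_eq_pow_finrank (K := k)⟩

theorem X_left' {I' I : AddSubgroup K} (J : AddSubgroup K) (h : I' ≤ I) (h1 : ho I' J ≠ 0)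
    (h2 : ho I J ≠ 0) : X I J = X I' J * I'.relIndex I := X_left J h h1 h2

theorem X_right' {J' J : AddSubgroup K} (I : AddSubgroup K) (h : J' ≤ J) (h1 : ho I J' ≠ 0)
    (h2 : ho I J ≠ 0) : X I J = X I J' * J'.relIndex J := X_right I h h1 h2

theorem calculus' {I' I : AddSubgroup K} (J : AddSubgroup K) (h : I' ≤ I) :
    hz I J * ho I' J = hz I' J * I'.relIndex I * ho I J := calculus J h

theorem ho_mul {z : K} (hz : z ≠ 0) (I J : AddSubgroup K) :
    ho (I.map (mulK z)) (J.map (mulK z)) = ho I J := ho_map (mulK_bijective hz) _ _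

theorem hz_mul {z : K} (hz : z ≠ 0) (I J : AddSubgroup K) :
    PackFF.hz (I.map (mulK z)) (J.map (mulK z)) = PackFF.hz I J := hz_map (mulK_bijective hz).1 _ _

theorem X_mul {z : K} (hz : z ≠ 0) (I J : AddSubgroup K) :
    X (I.map (mulK z)) (J.map (mulK z)) = X I J := by
  unfold X
  rw [hz_mul hz, ho_mul hz]

theorem aux_zpow {a Q : ℝ} (hq : Q ≠ 0) {b e : ℤ} {c : ℕ} (h1 : Q ^ (b + e) = a * Q ^ c) :
    a = Q ^ (b - c + e) := by
  have h2 : (Q ^ c) ≠ 0 := pow_ne_zero _ hq
  have h3 : b - c + e = (b + e) - c := by ring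
  rw [h3, zpow_sub₀ hq, h1, zpow_natCast, mul_div_cancel_right₀ _ h2]

variable (K) (R : Type u) [CommRing R] [IsDedekindDomain R] [Algebra R K] [IsFractionRing R K]
  (R' : Type u) [CommRing R'] [IsDedekindDomain R'] [Algebra R' K] [IsFractionRing R' K]

/-- the finiteness hypotheses -/
structure Hyp : Prop where
  nonempty : Nonempty (HeightOneSpectrum R')
  ho_ne : ∀ m : HeightOneSpectrum R' → ℤ, ho (toK K (⊤ : Ideal R)) (J R' m) ≠ 0
  fin : ∀ m : HeightOneSpectrum R' → ℤ, Finite ↥(toK K (⊤ : Ideal R) ⊓ J R' m)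

variable {K R R'} [Ring.HasFiniteQuotients R] [Finite (HeightOneSpectrum R')] (H : Hyp K R R')

/-- the constants -/
def kk (H : Hyp K R R') : Subfield K where
  carrier := (toK K (⊤ : Ideal R) ⊓ J R' 0 : AddSubgroup K)
  zero_mem' := zero_mem _
  one_mem' := ⟨⟨1, trivial, map_one (algebraMap R K)⟩, fun v => by simp⟩
  add_mem' := fun ha hb => add_mem ha hb
  neg_mem' := fun ha => neg_mem ha
  mul_mem' := by
    rintro a b ⟨⟨a', -, rfl⟩, ha2⟩ ⟨⟨b', -, rfl⟩, hb2⟩
    refine ⟨⟨a' * b', trivial, map_mul (algebraMap R K) _ _⟩, fun v => ?_⟩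
    have h1 := ha2 v
    have h2 := hb2 v
    simp only [Pi.zero_apply, exp_zero] at h1 h2 ⊢
    change v.valuation K ((algebraMap R K a') * (algebraMap R K b')) ≤ 1
    rw [map_mul]
    exact mul_le_one' h1 h2
  inv_mem' := by
    intro x hx
    by_cases hx0 : x = 0
    · rw [hx0, inv_zero]; exact zero_mem _
    -- powers of `x`
    have hfin := H.fin 0
    let S : Submonoid K :=
      { carrier := (toK K (⊤ : Ideal R) ⊓ J R' 0 : AddSubgroup K)
        one_mem' := ⟨⟨1, trivial, map_one (algebraMap R K)⟩, fun v => by simp⟩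
        mul_mem' := by
          rintro a b ⟨⟨a', -, rfl⟩, ha2⟩ ⟨⟨b', -, rfl⟩, hb2⟩
          refine ⟨⟨a' * b', trivial, map_mul (algebraMap R K) _ _⟩, fun v => ?_⟩
          have h1 := ha2 v
          have h2 := hb2 v
          simp only [Pi.zero_apply, exp_zero] at h1 h2 ⊢
          change v.valuation K ((algebraMap R K a') * (algebraMap R K b')) ≤ 1
          rw [map_mul]
          exact mul_le_one' h1 h2 }
    have : Finite S := hfin
    have hxS : x ∈ S := hx
    obtain ⟨i, j, hij, h⟩ := Finite.exists_ne_map_eq_of_infinite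
      (fun n : ℕ => (⟨x ^ n, pow_mem hxS n⟩ : S))
    have h' : x ^ i = x ^ j := congrArg Subtype.val h
    wlog hlt : i < j generalizing i j
    · exact this j i hij.symm h.symm h'.symm (lt_of_le_of_ne (not_lt.mp hlt) hij.symm)
    have h1 : x ^ (j - i) = 1 := by
      have : x ^ i * x ^ (j - i) = x ^ i * 1 := by
        rw [← pow_add, Nat.add_sub_cancel' hlt.le, mul_one, h']
      exact mul_left_cancel₀ (pow_ne_zero _ hx0) this
    have h2 : x⁻¹ = x ^ (j - i - 1) := by
      apply inv_eq_of_mul_eq_one_right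
      rw [← pow_succ', Nat.sub_add_cancel (by omega), h1]
    rw [h2]
    exact pow_mem hxS _

instance finite_kk : Finite (kk H) := H.fin 0

/-- cardinality of the field of constants -/
noncomputable def q : ℕ := Nat.card (kk H)

theorem two_le_q : 2 ≤ q H := by
  unfold q
  have : 1 < Nat.card (kk H) := Finite.one_lt_card
  omega

theorem hz_zero : hz (toK K (⊤ : Ideal R)) (J R' 0) = q H := rfl

theorem kk_mul_toK (I : Ideal R) : ∀ c ∈ kk H, ∀ x ∈ toK K I, c * x ∈ toK K I := by
  rintro c ⟨⟨c', -, rfl⟩, -⟩ x hx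
  obtain ⟨r, hr, rfl⟩ := mem_toK.mp hx
  exact mem_toK.mpr ⟨c' * r, I.mul_mem_left _ hr, map_mul _ _ _⟩

theorem kk_mul_J (m : HeightOneSpectrum R' → ℤ) :
    ∀ c ∈ kk H, ∀ x ∈ (J R' m : AddSubgroup K), c * x ∈ (J R' m : AddSubgroup K) := by
  rintro c ⟨-, hc⟩ x hx v
  have h1 := hc v
  simp only [Pi.zero_apply, exp_zero] at h1
  rw [map_mul]
  calc _ ≤ 1 * v.valuation K x := mul_le_mul_left h1 _
    _ ≤ exp (m v) := by rw [one_mul]; exact hx v

theorem kk_mul_sup (I : Ideal R) (m : HeightOneSpectrum R' → ℤ) :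
    ∀ c ∈ kk H, ∀ x ∈ (toK K I ⊔ J R' m : AddSubgroup K), c * x ∈ (toK K I ⊔ J R' m : AddSubgroup K) := by
  intro c hc x hx
  obtain ⟨y, hy, z, hz, rfl⟩ := AddSubgroup.mem_sup.mp hx
  rw [mul_add]
  exact add_mem (AddSubgroup.mem_sup_left (kk_mul_toK H I c hc y hy))
    (AddSubgroup.mem_sup_right (kk_mul_J H m c hc z hz))

theorem exists_dg {I : Ideal R} (hI : I ≠ ⊥) : ∃ n : ℕ, Nat.card (R ⧸ I) = q H ^ n := by
  rw [← relIndex_toK (K := K)]
  refine exists_pow (kk H) (kk_mul_toK H I) (kk_mul_toK H ⊤) ?_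
  rw [relIndex_toK]
  have := Ring.HasFiniteQuotients.finiteQuotient hI
  exact Nat.card_pos.ne'

/-- degree of an ideal -/
noncomputable def dg (I : Ideal R) : ℕ := Nat.log (q H) (Nat.card (R ⧸ I))

theorem card_quot {I : Ideal R} (hI : I ≠ ⊥) : Nat.card (R ⧸ I) = q H ^ dg H I := by
  obtain ⟨n, hn⟩ := exists_dg H hI
  unfold dg
  rw [hn, Nat.log_pow (two_le_q H)]

include H in
theorem hz_ne {I : Ideal R} (m : HeightOneSpectrum R' → ℤ) : hz (toK K I) (J R' m) ≠ 0 := by
  have h1 := H.fin m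
  have h2 : (toK K I ⊓ J R' m : AddSubgroup K) ≤ toK K ⊤ ⊓ J R' m :=
    inf_le_inf_right _ (toK_mono le_top)
  have h3 : Finite ↥(toK K I ⊓ J R' m) := Set.Finite.subset (Set.toFinite
    ((toK K (⊤ : Ideal R) ⊓ J R' m : AddSubgroup K) : Set K)) h2
  exact Nat.card_pos.ne'

include H in
theorem ho_ne {I : Ideal R} (hI : I ≠ ⊥) (m : HeightOneSpectrum R' → ℤ) :
    ho (toK K I) (J R' m) ≠ 0 := by
  have h1 := calculus' (J R' m) (toK_mono (K := K) (le_top : I ≤ ⊤))
  have h2 : (toK K I).relIndex (toK K (⊤ : Ideal R)) ≠ 0 := by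
    rw [relIndex_toK, card_quot H hI]
    exact pow_ne_zero _ (by have := two_le_q H; omega)
  intro h3
  rw [h3, mul_zero] at h1
  exact mul_ne_zero (mul_ne_zero (hz_ne H m) h2) (H.ho_ne m) h1.symm

include H in
theorem exists_d (v : HeightOneSpectrum R') : ∃ n : ℕ, Nat.card (R' ⧸ v.asIdeal) = q H ^ n := by
  classical
  rw [← relIndex_J (K := K) 0 v]
  have hle : (0 : HeightOneSpectrum R' → ℤ) ≤ 0 + Pi.single v 1 := by
    rw [zero_add]
    exact Pi.single_nonneg.mpr zero_le_one
  refine exists_pow (kk H) (kk_mul_J H _) (kk_mul_J H _) ?_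
  refine relIndex_ne_zero_of (toK K (⊤ : Ideal R)) (J_mono hle) ?_ ?_
  · rw [ho_comm]; exact H.ho_ne 0
  · rw [hz_comm]; exact hz_ne H _

/-- degree of a place -/
noncomputable def dd (v : HeightOneSpectrum R') : ℕ := Nat.log (q H) (Nat.card (R' ⧸ v.asIdeal))

theorem card_place (v : HeightOneSpectrum R') : Nat.card (R' ⧸ v.asIdeal) = q H ^ dd H v := by
  obtain ⟨n, hn⟩ := exists_d H v
  unfold dd
  rw [hn, Nat.log_pow (two_le_q H)]

theorem one_le_dd (v : HeightOneSpectrum R') : 1 ≤ dd H v := by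
  by_contra hcon
  have h0 : dd H v = 0 := by omega
  have h1 := card_place H v
  rw [h0, pow_zero] at h1
  have h2 : Subsingleton (R' ⧸ v.asIdeal) := (Nat.card_eq_one_iff_unique.mp h1).1
  exact v.isPrime.ne_top (Ideal.Quotient.subsingleton_iff.mp h2)

theorem exists_genus : ∃ g : ℕ, ho (toK K (⊤ : Ideal R)) (J R' 0) = q H ^ g := by
  have h1 : ho (toK K (⊤ : Ideal R)) (J R' 0) =
      (toK K (⊤ : Ideal R) ⊔ J R' 0).relIndex ⊤ := by
    rw [AddSubgroup.relIndex_top_right]; rfl
  rw [h1]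
  refine exists_pow (kk H) (kk_mul_sup H ⊤ 0) (fun _ _ _ _ => trivial) ?_
  rw [← h1]
  exact H.ho_ne 0

/-- the genus -/
noncomputable def genus : ℕ := (exists_genus H).choose

theorem ho_genus : ho (toK K (⊤ : Ideal R)) (J R' 0) = q H ^ genus H := (exists_genus H).choose_spec

/-- `1 - g` -/
noncomputable def chi : ℤ := 1 - genus H

theorem q_pos : (0 : ℝ) < q H := by
  have := two_le_q H
  positivity

theorem X_zero : X (toK K (⊤ : Ideal R)) (J R' 0) = (q H : ℝ) ^ chi H := by
  unfold X chi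
  rw [hz_zero, ho_genus, zpow_sub₀ (q_pos H).ne', zpow_one, zpow_natCast]
  push_cast
  rfl

/-- degree -/
noncomputable def deg [Fintype (HeightOneSpectrum R')] (m : HeightOneSpectrum R' → ℤ) : ℤ :=
  ∑ v, (dd H v : ℤ) * m v

theorem deg_add [Fintype (HeightOneSpectrum R')] (m n : HeightOneSpectrum R' → ℤ) :
    deg H (m + n) = deg H m + deg H n := by
  unfold deg
  rw [← Finset.sum_add_distrib]
  exact Finset.sum_congr rfl fun v _ => by rw [Pi.add_apply]; ring

theorem deg_single [Fintype (HeightOneSpectrum R')] [DecidableEq (HeightOneSpectrum R')]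
    (v : HeightOneSpectrum R') (n : ℤ) : deg H (Pi.single v n) = dd H v * n := by
  unfold deg
  rw [Finset.sum_eq_single v]
  · rw [Pi.single_eq_same]
  · intro w _ hw
    rw [Pi.single_eq_of_ne hw, mul_zero]
  · intro h; exact absurd (Finset.mem_univ v) h

theorem invariant {S : Type*} [Finite S] [DecidableEq S] (f : (S → ℤ) → ℝ)
    (h : ∀ m v, f (m + Pi.single v 1) = f m) (m : S → ℤ) : f m = f 0 := by
  have := Fintype.ofFinite S
  have h1 : ∀ m v (n : ℤ), f (m + Pi.single v n) = f m := by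
    intro m v n
    induction n using Int.induction_on with
    | zero => rw [Pi.single_zero, add_zero]
    | succ n ih =>
      rw [Pi.single_add, ← add_assoc, h]; exact ih
    | pred n ih =>
      rw [← h, add_assoc, ← Pi.single_add]
      convert ih using 3
      congr 1; ring
  have h2 : ∀ s : Finset S, f (∑ v ∈ s, Pi.single v (m v)) = f 0 := by
    intro s
    induction s using Finset.induction with
    | empty => rw [Finset.sum_empty]
    | insert a s has ih => rw [Finset.sum_insert has, add_comm, h1, ih]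
  have h3 : m = ∑ v, Pi.single v (m v) := by
    ext w
    rw [Finset.sum_apply, Finset.sum_eq_single w]
    · rw [Pi.single_eq_same]
    · intro v _ hv
      rw [Pi.single_eq_of_ne hv.symm]
    · intro h; exact absurd (Finset.mem_univ w) h
  rw [h3]; exact h2 _

theorem X_top [Fintype (HeightOneSpectrum R')] (m : HeightOneSpectrum R' → ℤ) :
    X (toK K (⊤ : Ideal R)) (J R' m) = (q H : ℝ) ^ (deg H m + chi H) := by
  classical
  have hq := (q_pos H).ne'
  have key := invariant (fun m => X (toK K (⊤ : Ideal R)) (J R' m) * (q H : ℝ) ^ (- deg H m))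
    (fun m v => by
      have hle : m ≤ m + Pi.single v 1 := by
        have : (0 : HeightOneSpectrum R' → ℤ) ≤ Pi.single v 1 := Pi.single_nonneg.mpr zero_le_one
        exact le_add_of_nonneg_right this
      rw [X_right' _ (J_mono hle) (H.ho_ne m) (H.ho_ne _), relIndex_J, card_place H, deg_add,
        deg_single, mul_one, neg_add, zpow_add₀ hq, zpow_neg _ (dd H v : ℤ), zpow_natCast]
      push_cast
      have : ((q H : ℝ) ^ dd H v) ≠ 0 := pow_ne_zero _ hq
      field_simp) m
  beta_reduce at key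
  have h0 : deg H 0 = 0 := by unfold deg; simp
  rw [h0, neg_zero, zpow_zero, mul_one, X_zero H] at key
  rw [zpow_add₀ hq, ← key, zpow_neg]
  have : ((q H : ℝ) ^ deg H m) ≠ 0 := zpow_ne_zero _ hq
  field_simp

theorem X_ideal [Fintype (HeightOneSpectrum R')] {I : Ideal R} (hI : I ≠ ⊥)
    (m : HeightOneSpectrum R' → ℤ) :
    X (toK K I) (J R' m) = (q H : ℝ) ^ (deg H m - dg H I + chi H) := by
  apply aux_zpow (q_pos H).ne'
  have hle : toK K I ≤ toK K (⊤ : Ideal R) := toK_mono le_top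
  rw [← X_top H, X_left' (J R' m) hle (ho_ne H hI m) (H.ho_ne m), relIndex_toK, card_quot H hI,
    Nat.cast_pow]

theorem hz_ge [Fintype (HeightOneSpectrum R')] {I : Ideal R} (hI : I ≠ ⊥)
    (m : HeightOneSpectrum R' → ℤ) :
    (q H : ℝ) ^ (deg H m - dg H I + chi H) ≤ hz (toK K I) (J R' m) := by
  rw [← X_ideal H hI m]
  unfold X
  have h1 : (1 : ℝ) ≤ ho (toK K I) (J R' m) := by
    exact_mod_cast Nat.one_le_iff_ne_zero.mpr (ho_ne H hI m)
  exact div_le_self (Nat.cast_nonneg _) h1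

/-- the product formula -/
theorem product_formula [Fintype (HeightOneSpectrum R')] {x : R} (hx : x ≠ 0) :
    (dg H (Ideal.span {x}) : ℤ) = deg H (fun v => lv v (algebraMap R K x)) := by
  have hx' : algebraMap R K x ≠ 0 := by
    rwa [Ne, FaithfulSMul.algebraMap_eq_zero_iff]
  have hI : Ideal.span {x} ≠ ⊥ := by rwa [Ne, Ideal.span_singleton_eq_bot]
  have h1 := X_mul hx' (toK K (⊤ : Ideal R)) (J R' 0)
  rw [toK_map hx, J_map hx', X_ideal H hI, X_zero H] at h1
  have hq1 : (1 : ℝ) < q H := by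
    have := two_le_q H
    exact_mod_cast (by omega : 1 < q H)
  have h2 := zpow_right_injective₀ (q_pos H) hq1.ne' h1
  have h3 : (fun v : HeightOneSpectrum R' => (0 : HeightOneSpectrum R' → ℤ) v +
      lv v (algebraMap R K x)) = fun v => lv v (algebraMap R K x) := by
    ext v; simp
  rw [h3] at h2
  linarith

end Pool.Agent.Work.MP_b29d7f_nt.FF.PackFF
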