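import Pool.Agent.Work.MP_b29d7f_nt_helper2.PC

/-!
# Two complementary Dedekind domains in a field: the pack
-/

namespace Pool.Agent.Work.MP_b29d7f_nt.FF.PackFF

open IsDedekindDomain WithZero

universe u

set_option linter.unusedSectionVars false

variable {K : Type u} [Field K] {R : Type u} [CommRing R] [IsDedekindDomain R] [Algebra R K]
  [IsFractionRing R K]
  {R' : Type u} [CommRing R'] [IsDedekindDomain R'] [Algebra R' K] [IsFractionRing R' K]
  [Ring.HasFiniteQuotients R] [Finite (HeightOneSpectrum R')] (H : Hyp K R R')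

include H in
theorem exists_m₀ : ∃ m₀ : HeightOneSpectrum R' → ℤ, ho (toK K (⊤ : Ideal R)) (J R' m₀) = 1 := by
  classical
  have h0 := H.ho_ne 0
  unfold ho at h0 ⊢
  have hfin : Finite (K ⧸ (toK K (⊤ : Ideal R) ⊔ J R' 0 : AddSubgroup K)) :=
    Nat.finite_of_card_ne_zero h0
  have := Fintype.ofFinite (K ⧸ (toK K (⊤ : Ideal R) ⊔ J R' 0 : AddSubgroup K))
  let m₀ : HeightOneSpectrum R' → ℤ := fun v =>
    ∑ c : K ⧸ (toK K (⊤ : Ideal R) ⊔ J R' 0 : AddSubgroup K), |lv v (Quotient.out c)|
  have h1 : ∀ v, 0 ≤ m₀ v := fun v => Finset.sum_nonneg fun c _ => abs_nonneg _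
  refine ⟨m₀, ?_⟩
  rw [AddSubgroup.index_eq_one, eq_top_iff]
  intro x _
  let c : K ⧸ (toK K (⊤ : Ideal R) ⊔ J R' 0 : AddSubgroup K) := QuotientAddGroup.mk x
  have h2 : - Quotient.out c + x ∈ (toK K (⊤ : Ideal R) ⊔ J R' 0 : AddSubgroup K) := by
    rw [← QuotientAddGroup.eq]
    exact Quotient.out_eq c
  have h3 : Quotient.out c ∈ (J R' m₀ : AddSubgroup K) := by
    intro v
    rw [val_le_iff']
    by_cases h : Quotient.out c = 0
    · exact Or.inl h
    · right
      exact (le_abs_self _).trans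
        (Finset.single_le_sum (f := fun c => |lv v (Quotient.out c)|) (fun _ _ => abs_nonneg _)
          (Finset.mem_univ c))
  have h4 : (toK K (⊤ : Ideal R) ⊔ J R' 0 : AddSubgroup K) ≤ toK K (⊤ : Ideal R) ⊔ J R' m₀ :=
    sup_le_sup_left (J_mono fun v => h1 v) _
  have h5 := add_mem (AddSubgroup.mem_sup_right (S := toK K (⊤ : Ideal R)) h3) (h4 h2)
  rwa [add_neg_cancel_left] at h5

theorem exists_ne_of_one_lt {I : Ideal R} {m : HeightOneSpectrum R' → ℤ}
    (h : 1 < hz (toK K I) (J R' m)) : ∃ x ∈ I, x ≠ 0 ∧ algebraMap R K x ∈ (J R' m : AddSubgroup K) := by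
  unfold hz at h
  have hfin : Finite ↥(toK K I ⊓ J R' m) := Nat.finite_of_card_ne_zero (by omega)
  have hnt : Nontrivial ↥(toK K I ⊓ J R' m) := Finite.one_lt_card_iff_nontrivial.mp h
  obtain ⟨⟨x, hx⟩, hx0⟩ := exists_ne (0 : ↥(toK K I ⊓ J R' m))
  obtain ⟨r, hr, rfl⟩ := mem_toK.mp hx.1
  refine ⟨r, hr, ?_, hx.2⟩
  rintro rfl
  apply hx0
  apply Subtype.ext
  exact map_zero _

theorem one_lt_hz [Fintype (HeightOneSpectrum R')] {I : Ideal R} (hI : I ≠ ⊥)
    {m : HeightOneSpectrum R' → ℤ} (h : 1 ≤ deg H m - dg H I + chi H) :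
    1 < hz (toK K I) (J R' m) := by
  have h1 := hz_ge H hI m
  have h2 : (1 : ℝ) < q H := by
    have := two_le_q H
    exact_mod_cast (by omega : 1 < q H)
  have h3 : (q H : ℝ) ^ (1 : ℤ) ≤ (q H : ℝ) ^ (deg H m - dg H I + chi H) :=
    zpow_le_zpow_right₀ h2.le h
  rw [zpow_one] at h3
  exact_mod_cast h2.trans_le (h3.trans h1)

theorem ho_eq_one [Fintype (HeightOneSpectrum R')] {m₀ : HeightOneSpectrum R' → ℤ}
    (hm₀ : ho (toK K (⊤ : Ideal R)) (J R' m₀) = 1) {I : Ideal R} (hI : I ≠ ⊥)
    {m : HeightOneSpectrum R' → ℤ} (h : deg H m₀ + 1 - chi H ≤ deg H m - dg H I) :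
    ho (toK K I) (J R' m) = 1 := by
  have h1 : 1 < hz (toK K I) (J R' (m - m₀)) := by
    apply one_lt_hz H hI
    have : deg H m = deg H (m - m₀) + deg H m₀ := by rw [← deg_add, sub_add_cancel]
    linarith
  obtain ⟨x, hxI, hx0, hxJ⟩ := exists_ne_of_one_lt h1
  have hx' : algebraMap R K x ≠ 0 := by
    rwa [Ne, FaithfulSMul.algebraMap_eq_zero_iff]
  have h2 := ho_mul hx' (toK K (⊤ : Ideal R)) (J R' m₀)
  rw [hm₀, toK_map hx0, J_map hx'] at h2
  have h3 : toK K (Ideal.span {x}) ≤ toK K I :=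
    toK_mono ((Ideal.span_singleton_le_iff_mem I).mpr hxI)
  have h4 : (J R' (fun v => m₀ v + lv v (algebraMap R K x)) : AddSubgroup K) ≤ J R' m := by
    apply J_mono
    intro v
    have h5 := (val_le_iff v hx').mp (hxJ v)
    rw [Pi.sub_apply] at h5
    linarith
  unfold ho at h2 ⊢
  rw [AddSubgroup.index_eq_one] at h2 ⊢
  rw [eq_top_iff, ← h2]
  exact sup_le_sup h3 h4

theorem mem_pow_iff (v : HeightOneSpectrum R') (r : R') (n : ℕ) :
    v.valuation K (algebraMap R' K r) ≤ exp (-(n : ℤ)) ↔ r ∈ v.asIdeal ^ n := by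
  rw [HeightOneSpectrum.valuation_of_algebraMap]
  exact HeightOneSpectrum.intValuation_le_pow_iff_mem v r n

theorem approx (y : HeightOneSpectrum R' → K) (m : HeightOneSpectrum R' → ℤ) :
    ∃ z : K, ∀ v : HeightOneSpectrum R', v.valuation K (z - y v) ≤ exp (m v) := by
  classical
  have := Fintype.ofFinite (HeightOneSpectrum R')
  obtain ⟨N, hN⟩ : ∃ N : ℕ, ∀ v w : HeightOneSpectrum R', lv w (y v) - m w ≤ N := by
    refine ⟨∑ v : HeightOneSpectrum R', ∑ w : HeightOneSpectrum R', (lv w (y v) - m w).toNat, ?_⟩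
    intro v w
    refine (Int.self_le_toNat _).trans ?_
    norm_cast
    refine le_trans ?_ (Finset.single_le_sum
      (f := fun v : HeightOneSpectrum R' => ∑ w : HeightOneSpectrum R', (lv w (y v) - m w).toNat)
      (fun _ _ => Nat.zero_le _) (Finset.mem_univ v))
    exact Finset.single_le_sum
      (f := fun w : HeightOneSpectrum R' => (lv w (y v) - m w).toNat)
      (fun _ _ => Nat.zero_le _) (Finset.mem_univ w)
  have hcrt : ∀ v : HeightOneSpectrum R', ∃ e : R', ∀ w : HeightOneSpectrum R',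
      e - (if w = v then 1 else 0) ∈ w.asIdeal ^ N := by
    intro v
    obtain ⟨e, he⟩ := IsDedekindDomain.exists_forall_sub_mem_ideal
      (s := (Finset.univ : Finset (HeightOneSpectrum R')))
      (fun w : HeightOneSpectrum R' => w.asIdeal) (fun _ => N)
      (fun w _ => w.prime) (fun i _ j _ hij h => hij (HeightOneSpectrum.ext h))
      (fun w => if w.1 = v then 1 else 0)
    exact ⟨e, fun w => he w (Finset.mem_univ w)⟩
  choose e he using hcrt
  refine ⟨∑ v, algebraMap R' K (e v) * y v, fun w => ?_⟩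
  have h1 : (∑ v, algebraMap R' K (e v) * y v) - y w =
      ∑ v, algebraMap R' K (e v - (if w = v then 1 else 0)) * y v := by
    have : y w = ∑ v, (if w = v then 1 else 0) * y v := by simp
    rw [this, ← Finset.sum_sub_distrib]
    refine Finset.sum_congr rfl fun v _ => ?_
    rw [map_sub, sub_mul]
    congr 2
    split_ifs
    · rw [map_one]
    · rw [map_zero]
  rw [h1]
  refine Valuation.map_sum_le _ fun v _ => ?_
  rw [map_mul]
  by_cases hy : y v = 0
  · rw [hy, map_zero, mul_zero]; exact zero_le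
  · have h2 : w.valuation K (algebraMap R' K (e v - (if w = v then 1 else 0))) ≤ exp (-(N : ℤ)) :=
      (mem_pow_iff w _ N).mpr (he v w)
    rw [val_eq w hy]
    calc _ ≤ exp (-(N : ℤ)) * exp (lv w (y v)) := mul_le_mul_left h2 _
      _ = exp (-(N : ℤ) + lv w (y v)) := (exp_add _ _).symm
      _ ≤ exp (m w) := by
        rw [exp_le_exp]
        have := hN v w
        linarith

/-- the order of the pole of an element of `R` -/
noncomputable def lev (K : Type u) [Field K] [Algebra R K] [Algebra R' K] [IsFractionRing R' K]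
    (v : HeightOneSpectrum R') (x : R) : ℤ := lv v (algebraMap R K x)

theorem val_iff_lev (v : HeightOneSpectrum R') (x y : R) (m : ℤ) :
    v.valuation K (algebraMap R K x - algebraMap R K y) ≤ exp m ↔
      (x = y ∨ lev K v (x - y) ≤ m) := by
  rw [val_le_iff', sub_eq_zero, (FaithfulSMul.algebraMap_injective R K).eq_iff, ← map_sub]
  rfl

theorem card_shift (I : Ideal R) (m : HeightOneSpectrum R' → ℤ) (r : R) (hr : r ∈ I)
    (y : HeightOneSpectrum R' → R)
    (hy : ∀ v, v.valuation K (algebraMap R K r - algebraMap R K (y v)) ≤ exp (m v)) :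
    Nat.card {x : R // x ∈ I ∧ ∀ v : HeightOneSpectrum R', x = y v ∨ lev K v (x - y v) ≤ m v} =
      hz (toK K I) (J R' m) := by
  unfold hz
  have hiff : ∀ x : R, (∀ v : HeightOneSpectrum R', x = y v ∨ lev K v (x - y v) ≤ m v) ↔
      algebraMap R K x - algebraMap R K r ∈ (J R' m : AddSubgroup K) := by
    intro x
    rw [mem_J]
    refine forall_congr' fun v => ?_
    rw [← val_iff_lev]
    constructor
    · intro h
      have : algebraMap R K x - algebraMap R K r =
        (algebraMap R K x - algebraMap R K (y v)) - (algebraMap R K r - algebraMap R K (y v)) := by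
        ring
      rw [this]
      exact (Valuation.map_sub _ _ _).trans (max_le h (hy v))
    · intro h
      have : algebraMap R K x - algebraMap R K (y v) =
        (algebraMap R K x - algebraMap R K r) + (algebraMap R K r - algebraMap R K (y v)) := by
        ring
      rw [this]
      exact (Valuation.map_add _ _ _).trans (max_le h (hy v))
  let f : {x : R // x ∈ I ∧ ∀ v : HeightOneSpectrum R', x = y v ∨ lev K v (x - y v) ≤ m v} →
      ↥(toK K I ⊓ J R' m) := fun x =>
    ⟨algebraMap R K x.1 - algebraMap R K r, by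
      refine ⟨?_, (hiff x.1).mp x.2.2⟩
      have h1 : algebraMap R K x.1 ∈ toK K I := algebraMap_mem_toK.mpr x.2.1
      have h2 : algebraMap R K r ∈ toK K I := algebraMap_mem_toK.mpr hr
      exact (toK K I).sub_mem h1 h2⟩
  refine Nat.card_congr (Equiv.ofBijective f ⟨?_, ?_⟩)
  · intro a b hab
    have h1 : algebraMap R K a.1 - algebraMap R K r = algebraMap R K b.1 - algebraMap R K r :=
      congrArg Subtype.val hab
    exact Subtype.ext (FaithfulSMul.algebraMap_injective R K (sub_left_injective h1))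
  · rintro ⟨x, hx1, hx2⟩
    obtain ⟨s, hs, rfl⟩ := mem_toK.mp hx1
    refine ⟨⟨s + r, I.add_mem hs hr, (hiff _).mpr ?_⟩, ?_⟩
    · rw [map_add, add_sub_cancel_right]; exact hx2
    · apply Subtype.ext
      change algebraMap R K (s + r) - algebraMap R K r = algebraMap R K s
      rw [map_add, add_sub_cancel_right]

theorem card_shift_zero (I : Ideal R) (m : HeightOneSpectrum R' → ℤ) :
    Nat.card {x : R // x ∈ I ∧ ∀ v : HeightOneSpectrum R', x = 0 ∨ lev K v x ≤ m v} =
      hz (toK K I) (J R' m) := by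
  rw [← card_shift (K := K) I m 0 I.zero_mem (fun _ => 0) (fun v => by rw [sub_self, map_zero]; exact zero_le)]
  simp only [sub_zero]

theorem card_eq [Fintype (HeightOneSpectrum R')] {I : Ideal R} (hI : I ≠ ⊥)
    {m : HeightOneSpectrum R' → ℤ} (h : ho (toK K I) (J R' m) = 1) (y : HeightOneSpectrum R' → R) :
    (Nat.card {x : R // x ∈ I ∧ ∀ v : HeightOneSpectrum R', x = y v ∨ lev K v (x - y v) ≤ m v} : ℝ) =
      (q H : ℝ) ^ (deg H m - dg H I + chi H) := by
  obtain ⟨z, hz⟩ := approx (K := K) (fun v => algebraMap R K (y v)) m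
  have h1 : z ∈ (toK K I ⊔ J R' m : AddSubgroup K) := by
    have h2 : (toK K I ⊔ J R' m : AddSubgroup K) = ⊤ := AddSubgroup.index_eq_one.mp h
    rw [h2]; trivial
  obtain ⟨i, hi, j, hj, rfl⟩ := AddSubgroup.mem_sup.mp h1
  obtain ⟨r, hr, rfl⟩ := mem_toK.mp hi
  rw [card_shift (K := K) I m r hr y ?_]
  · have h3 := X_ideal H hI m
    unfold X at h3
    rw [h, Nat.cast_one, div_one] at h3
    exact h3
  · intro v
    have : algebraMap R K r - algebraMap R K (y v) =
      (algebraMap R K r + j - algebraMap R K (y v)) - j := by ring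
    rw [this]
    exact (Valuation.map_sub _ _ _).trans (max_le (hz v) (hj v))

theorem finite_mem {x : R} (hx : x ≠ 0) : {I : Ideal R | x ∈ I}.Finite := by
  classical
  have hx' : Ideal.span {x} ≠ 0 := by
    rwa [Ne, Ideal.zero_eq_bot, Ideal.span_singleton_eq_bot]
  have h1 := UniqueFactorizationMonoid.fintypeSubtypeDvd (Ideal.span {x}) hx'
  have h2 : {I : Ideal R | I ∣ Ideal.span {x}}.Finite := @Set.toFinite _ _ (@Finite.of_fintype _ h1)
  refine h2.subset fun I hI => ?_
  exact Ideal.dvd_span_singleton.mpr hI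

theorem finite_ideals [Fintype (HeightOneSpectrum R')] (D : ℕ) :
    {I : Ideal R | I ≠ ⊥ ∧ dg H I ≤ D}.Finite := by
  classical
  obtain ⟨v₀⟩ := H.nonempty
  let n : ℤ := |D + 1 - chi H|
  let m : HeightOneSpectrum R' → ℤ := Pi.single v₀ n
  have hm : D + 1 - chi H ≤ deg H m := by
    have h1 : deg H m = dd H v₀ * n := deg_single H v₀ n
    rw [h1]
    have h2 : (1 : ℤ) ≤ dd H v₀ := by exact_mod_cast one_le_dd H v₀
    have h3 : (0 : ℤ) ≤ n := abs_nonneg _
    have h4 : D + 1 - chi H ≤ n := le_abs_self _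
    nlinarith
  have hfin := H.fin m
  let Z : Set R := {x | x ≠ 0 ∧ algebraMap R K x ∈ (J R' m : AddSubgroup K)}
  have hZ : Z.Finite := by
    have h1 : ((toK K (⊤ : Ideal R) ⊓ J R' m : AddSubgroup K) : Set K).Finite := Set.toFinite _
    refine Set.Finite.subset (h1.preimage (FaithfulSMul.algebraMap_injective R K).injOn) ?_
    intro x hx
    exact ⟨algebraMap_mem_toK.mpr trivial, hx.2⟩
  refine Set.Finite.subset (hZ.biUnion fun x hx => finite_mem hx.1) ?_
  rintro I ⟨hI, hD⟩
  obtain ⟨x, hxI, hx0, hxJ⟩ := exists_ne_of_one_lt (one_lt_hz H hI (m := m) (by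
    have : (dg H I : ℤ) ≤ D := by exact_mod_cast hD
    linarith))
  exact Set.mem_biUnion (show x ∈ Z from ⟨hx0, hxJ⟩) hxI

include H in
/-- the pack of two complementary Dedekind domains -/
theorem exists_pack [Fintype (HeightOneSpectrum R')] :
    Nonempty (Pack R (HeightOneSpectrum R')) := by
  classical
  obtain ⟨m₀, hm₀⟩ := exists_m₀ H
  refine ⟨{
    q := q H
    χ := chi H
    c₀ := 1 + (deg H m₀ + 1 - chi H).toNat
    d := dd H
    lev := lev K
    dg := dg H
    two_le_q := two_le_q H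
    one_le_c₀ := Nat.le_add_right _ _
    one_le_d := one_le_dd H
    card_quot := fun I hI => card_quot H hI
    finite_ideals := finite_ideals H
    lev_mul := ?_
    lev_add := ?_
    dg_span := ?_
    finite_box := ?_
    card_ge := ?_
    card_eq := ?_
    card_const := ?_ }⟩
  · intro v x y hx hy
    have hx' : algebraMap R K x ≠ 0 := by rwa [Ne, FaithfulSMul.algebraMap_eq_zero_iff]
    have hy' : algebraMap R K y ≠ 0 := by rwa [Ne, FaithfulSMul.algebraMap_eq_zero_iff]
    unfold lev
    rw [map_mul, lv_mul v hx' hy']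
  · intro v x y hx hy hxy
    have hx' : algebraMap R K x ≠ 0 := by rwa [Ne, FaithfulSMul.algebraMap_eq_zero_iff]
    have hy' : algebraMap R K y ≠ 0 := by rwa [Ne, FaithfulSMul.algebraMap_eq_zero_iff]
    have hxy' : algebraMap R K x + algebraMap R K y ≠ 0 := by
      rw [← map_add]
      rwa [Ne, FaithfulSMul.algebraMap_eq_zero_iff]
    unfold lev
    rw [map_add]
    exact lv_add v hx' hy' hxy'
  · intro x hx
    exact product_formula H hx
  · intro m
    have h0 := H.fin m
    have h1 : ((toK K (⊤ : Ideal R) ⊓ J R' m : AddSubgroup K) : Set K).Finite := Set.toFinite _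
    refine Set.Finite.subset (h1.preimage (FaithfulSMul.algebraMap_injective R K).injOn) ?_
    intro x hx
    refine ⟨algebraMap_mem_toK.mpr trivial, fun v => ?_⟩
    rw [val_le_iff']
    rcases hx v with h | h
    · left; rw [h, map_zero]
    · exact Or.inr h
  · intro I hI m
    rw [card_shift_zero (K := K) I m]
    exact hz_ge H hI m
  · intro I hI m hm y
    refine card_eq H hI (ho_eq_one H hm₀ hI ?_) y
    have h1 : deg H m₀ + 1 - chi H ≤ (deg H m₀ + 1 - chi H).toNat := Int.self_le_toNat _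
    push_cast at hm
    change (1 : ℤ) + _ ≤ deg H m - dg H I at hm
    linarith
  · have h1 := card_shift_zero (K := K) (⊤ : Ideal R) (0 : HeightOneSpectrum R' → ℤ)
    rw [hz_zero H] at h1
    rw [← h1]
    refine Nat.card_congr (Equiv.subtypeEquivRight fun x => ?_)
    simp

end Pool.Agent.Work.MP_b29d7f_nt.FF.PackFF
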