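import Pool.Agent.Work.MP_b29d7f_nt_helper2.PD
import Pool.Agent.Work.MP_b29d7f_nt.FF.Interface
import Pool.Agent.Work.MP_b29d7f_nt.Ded.Place

/-!
# The ring of integers of a function field has a pack
-/

namespace Pool.Agent.Work.MP_b29d7f_nt.FF.PackFF

open IsDedekindDomain WithZero Polynomial
open Pool.Agent.Work.MP_b29d7f_nt.Ded

universe u w

set_option linter.unusedSectionVars false

section ratfunc

variable (Fq : Type w) [Field Fq]

open Classical in
/-- the valuation at infinity -/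
noncomputable def vi : Valuation (RatFunc Fq) ℤᵐ⁰ := RatFunc.inftyValuation Fq

theorem mem_Oinf_iff {r : RatFunc Fq} : r ∈ Oinf Fq ↔ vi Fq r ≤ 1 := Iff.rfl

theorem vi_poly {p : Fq[X]} (hp : p ≠ 0) :
    vi Fq (algebraMap Fq[X] (RatFunc Fq) p) = exp (p.natDegree : ℤ) := by
  classical
  unfold vi
  rw [RatFunc.inftyValuation_apply, RatFunc.inftyValuation.polynomial Fq hp]

theorem vi_poly_le {p : Fq[X]} {n : ℕ} (hp : p.natDegree ≤ n) :
    vi Fq (algebraMap Fq[X] (RatFunc Fq) p) ≤ exp (n : ℤ) := by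
  by_cases h : p = 0
  · rw [h, map_zero, map_zero]; exact zero_le
  · rw [vi_poly Fq h, exp_le_exp]; exact_mod_cast hp

theorem natDegree_le_of_vi {p : Fq[X]} {n : ℤ}
    (h : vi Fq (algebraMap Fq[X] (RatFunc Fq) p) ≤ exp n) (hn : 0 ≤ n) : (p.natDegree : ℤ) ≤ n := by
  by_cases h0 : p = 0
  · rw [h0, natDegree_zero]; exact_mod_cast hn
  · rwa [vi_poly Fq h0, exp_le_exp] at h

theorem vi_X : vi Fq RatFunc.X = exp 1 := by
  classical
  unfold vi
  exact RatFunc.inftyValuation.X Fq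

theorem vi_X_zpow (n : ℤ) : vi Fq (RatFunc.X ^ n) = exp n := by
  rw [map_zpow₀, vi_X]
  simp

theorem exists_poly_part (c : RatFunc Fq) :
    ∃ f : Fq[X], vi Fq (c - algebraMap Fq[X] (RatFunc Fq) f) ≤ 1 := by
  have hmonic := RatFunc.monic_denom c
  have hd : algebraMap Fq[X] (RatFunc Fq) c.denom ≠ 0 := by
    rw [Ne, FaithfulSMul.algebraMap_eq_zero_iff]
    exact RatFunc.denom_ne_zero c
  refine ⟨c.num /ₘ c.denom, ?_⟩
  have h1 : c - algebraMap Fq[X] (RatFunc Fq) (c.num /ₘ c.denom) =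
      algebraMap Fq[X] (RatFunc Fq) (c.num %ₘ c.denom) / algebraMap Fq[X] (RatFunc Fq) c.denom := by
    rw [eq_div_iff hd, sub_mul]
    nth_rewrite 1 [← RatFunc.num_div_denom c]
    rw [div_mul_cancel₀ _ hd, ← map_mul, ← map_sub]
    congr 1
    have := modByMonic_add_div c.num c.denom
    rw [sub_eq_iff_eq_add, mul_comm (c.num /ₘ c.denom)]
    exact this.symm
  rw [h1, map_div₀]
  have h2 : vi Fq (algebraMap Fq[X] (RatFunc Fq) c.denom) = exp (c.denom.natDegree : ℤ) :=
    vi_poly Fq (RatFunc.denom_ne_zero c)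
  rw [h2]
  apply div_le_one_of_le₀ _ zero_le
  apply vi_poly_le
  exact natDegree_modByMonic_le _ hmonic

theorem exists_dvr : IsDiscreteValuationRing (Oinf Fq) := by
  unfold Oinf
  infer_instance

/-- `1/t` as an element of the valuation ring -/
noncomputable def pinf : Oinf Fq := ⟨RatFunc.X⁻¹, by
  rw [mem_Oinf_iff, map_inv₀, vi_X, ← exp_neg, ← exp_zero, exp_le_exp]; norm_num⟩

theorem pinf_ne : pinf Fq ≠ 0 := by
  intro h
  have h1 : (RatFunc.X : RatFunc Fq)⁻¹ = 0 := congrArg Subtype.val h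
  exact inv_ne_zero RatFunc.X_ne_zero h1

theorem pinf_not_unit : ¬ IsUnit (pinf Fq) := by
  intro h
  obtain ⟨u, hu⟩ := h.exists_right_inv
  have h1 : (RatFunc.X : RatFunc Fq)⁻¹ * u = 1 := congrArg Subtype.val hu
  have h2 : (u : RatFunc Fq) = RatFunc.X := by
    rw [inv_mul_eq_iff_eq_mul₀ RatFunc.X_ne_zero, mul_one] at h1
    exact h1
  have h3 : vi Fq (u : RatFunc Fq) ≤ 1 := (mem_Oinf_iff Fq).mp u.2
  rw [h2, vi_X, ← exp_zero, exp_le_exp] at h3
  norm_num at h3

end ratfunc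

section ff

variable (Fq : Type w) [Field Fq] (K : Type u) [Field K] [Algebra Fq[X] K]
  [Algebra (RatFunc Fq) K] [IsScalarTower Fq[X] (RatFunc Fq) K] [FunctionField Fq K]
  [Algebra.IsSeparable (RatFunc Fq) K]

/-- the integral closure of the valuation ring at infinity -/
noncomputable abbrev Rinf : Subalgebra (Oinf Fq) K := integralClosure (Oinf Fq) K

instance instDed : IsDedekindDomain (Rinf Fq K) := by
  have := exists_dvr Fq
  exact integralClosure.isDedekindDomain (Oinf Fq) (RatFunc Fq) K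

instance instFrac : IsFractionRing (Rinf Fq K) K :=
  integralClosure.isFractionRing_of_finite_extension (RatFunc Fq) K

theorem finite_Rinf : Module.Finite (Oinf Fq) (Rinf Fq K) := by
  have := exists_dvr Fq
  exact IsIntegralClosure.finite (Oinf Fq) (RatFunc Fq) K (Rinf Fq K)

theorem algebraMap_pinf : algebraMap (Rinf Fq K) K (algebraMap (Oinf Fq) (Rinf Fq K) (pinf Fq)) =
    (algebraMap (RatFunc Fq) K RatFunc.X)⁻¹ := by
  rw [← IsScalarTower.algebraMap_apply, IsScalarTower.algebraMap_apply (Oinf Fq) (RatFunc Fq) K,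
    ← map_inv₀]
  rfl

/-- the variable `t` in `K` -/
noncomputable def tK : K := algebraMap (RatFunc Fq) K RatFunc.X

theorem tK_ne : tK Fq K ≠ 0 := by
  unfold tK
  rw [Ne, FaithfulSMul.algebraMap_eq_zero_iff]
  exact RatFunc.X_ne_zero

theorem algebraMap_pinf_ne : algebraMap (Oinf Fq) (Rinf Fq K) (pinf Fq) ≠ 0 := by
  intro h
  have h1 := algebraMap_pinf Fq K
  rw [h, map_zero] at h1
  exact inv_ne_zero (tK_ne Fq K) h1.symm

theorem pinf_mem (v : HeightOneSpectrum (Rinf Fq K)) :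
    algebraMap (Oinf Fq) (Rinf Fq K) (pinf Fq) ∈ v.asIdeal := by
  have h1 := v.isMaximal
  have h2 : (v.asIdeal.comap (algebraMap (Oinf Fq) (Rinf Fq K))).IsMaximal :=
    Ideal.isMaximal_comap_of_isIntegral_of_isMaximal v.asIdeal
  have h3 := IsLocalRing.eq_maximalIdeal h2
  rw [← Ideal.mem_comap, h3]
  exact (IsLocalRing.mem_maximalIdeal _).mpr (pinf_not_unit Fq)

theorem val_Oinf_le (v : HeightOneSpectrum (Rinf Fq K)) {a : RatFunc Fq} (ha : vi Fq a ≤ 1) :
    v.valuation K (algebraMap (RatFunc Fq) K a) ≤ 1 := by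
  have h1 : algebraMap (RatFunc Fq) K a =
      algebraMap (Rinf Fq K) K (algebraMap (Oinf Fq) (Rinf Fq K) ⟨a, (mem_Oinf_iff Fq).mpr ha⟩) := by
    rw [← IsScalarTower.algebraMap_apply, IsScalarTower.algebraMap_apply (Oinf Fq) (RatFunc Fq) K]
    rfl
  rw [h1]
  exact HeightOneSpectrum.valuation_le_one v _

instance instFinite : Finite (HeightOneSpectrum (Rinf Fq K)) := by
  classical
  have hx' : Ideal.span {algebraMap (Oinf Fq) (Rinf Fq K) (pinf Fq)} ≠ 0 := by
    rw [Ne, Ideal.zero_eq_bot, Ideal.span_singleton_eq_bot]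
    exact algebraMap_pinf_ne Fq K
  have h1 := UniqueFactorizationMonoid.fintypeSubtypeDvd
    (Ideal.span {algebraMap (Oinf Fq) (Rinf Fq K) (pinf Fq)}) hx'
  refine Finite.of_injective (β := {I : Ideal (Rinf Fq K) //
    I ∣ Ideal.span {algebraMap (Oinf Fq) (Rinf Fq K) (pinf Fq)}})
    (fun v => ⟨v.asIdeal, Ideal.dvd_span_singleton.mpr (pinf_mem Fq K v)⟩) ?_
  intro v w h
  exact HeightOneSpectrum.ext (congrArg Subtype.val h)

theorem one_le_lv (v : HeightOneSpectrum (Rinf Fq K)) : 1 ≤ lv v (tK Fq K) := by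
  have h1 := (mem_pow_iff (K := K) v (algebraMap (Oinf Fq) (Rinf Fq K) (pinf Fq)) 1).mpr
    (by rw [pow_one]; exact pinf_mem Fq K v)
  rw [algebraMap_pinf] at h1
  change v.valuation K (tK Fq K)⁻¹ ≤ _ at h1
  rw [val_le_iff v (inv_ne_zero (tK_ne Fq K)), lv_inv] at h1
  push_cast at h1
  linarith

theorem nonempty_places : Nonempty (HeightOneSpectrum (Rinf Fq K)) := by
  have hnu : ¬ IsUnit (algebraMap (Oinf Fq) (Rinf Fq K) (pinf Fq)) := by
    intro h
    obtain ⟨u, hu⟩ := h.exists_right_inv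
    have h1 : (u : K) = tK Fq K := by
      have h2 := congrArg (algebraMap (Rinf Fq K) K) hu
      rw [map_mul, map_one, algebraMap_pinf] at h2
      have h3 := tK_ne Fq K
      change (tK Fq K)⁻¹ * (u : K) = 1 at h2
      rw [inv_mul_eq_iff_eq_mul₀ h3, mul_one] at h2
      exact h2
    have h2 : IsIntegral (Oinf Fq) (algebraMap (RatFunc Fq) K RatFunc.X) := by
      have := u.2
      rw [h1] at this
      exact this
    have h3 : IsIntegral (Oinf Fq) (RatFunc.X : RatFunc Fq) :=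
      (isIntegral_algHom_iff (IsScalarTower.toAlgHom (Oinf Fq) (RatFunc Fq) K)
        (algebraMap (RatFunc Fq) K).injective).mp h2
    obtain ⟨y, hy⟩ := IsIntegrallyClosed.isIntegral_iff.mp h3
    have h4 : vi Fq (y : RatFunc Fq) ≤ 1 := (mem_Oinf_iff Fq).mp y.2
    have h5 : (y : RatFunc Fq) = RatFunc.X := hy
    rw [h5, vi_X, ← exp_zero, exp_le_exp] at h4
    norm_num at h4
  obtain ⟨M, hM, hmem⟩ := exists_max_ideal_of_mem_nonunits hnu
  refine ⟨⟨M, hM.isPrime, ?_⟩⟩
  rintro rfl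
  exact algebraMap_pinf_ne Fq K ((Ideal.mem_bot).mp hmem)

end ff

end Pool.Agent.Work.MP_b29d7f_nt.FF.PackFF
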