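import Pool.Agent.Work.MP_b29d7f_nt.FF.Interface2
import Pool.Agent.Work.MP_b29d7f_nt.FF.Boxprod

/-!
# Block RIGID: for large `j` the initial segments of length `q^j` are exactly boxes
-/

set_option linter.unusedSectionVars false

namespace Pool.Agent.Work.MP_b29d7f_nt.FF

open Finset
open Pool.Agent.Work.MP_b29d7f_nt.Ded

universe u

section

variable {R : Type u} [CommRing R] [IsDedekindDomain R] [Ring.HasFiniteQuotients R] [Infinite R]
  {S : Type u} [Fintype S] (P : Pack R S)

open scoped Classical in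
theorem rigid_card_near (l : S → ℤ) (x₀ y : R) (v : S) (i : ℤ) :
    ((P.cell ⊤ l fun _ => x₀).filter fun b => P.Near v (l v - i) y b).card ≤
      (P.box ⊤ (Function.update l v (l v - i))).card := by
  rcases ((P.cell ⊤ l fun _ => x₀).filter fun b => P.Near v (l v - i) y b).eq_empty_or_nonempty
    with h | ⟨b₀, hb₀⟩
  · rw [h]; simp
  · refine Finset.card_le_card_of_injOn (fun b => b - b₀) ?_ ?_
    · intro b hb
      rw [Finset.mem_coe, Finset.mem_filter, P.mem_cell] at hb
      rw [Finset.mem_filter, P.mem_cell] at hb₀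
      rw [Finset.mem_coe, P.mem_box']
      refine ⟨trivial, fun w => ?_⟩
      rw [Pack.near_sub_zero]
      by_cases hw : w = v
      · subst hw
        rw [Function.update_self]
        exact Pack.near_trans (Pack.near_symm hb.2) hb₀.2
      · rw [Function.update_of_ne hw]
        exact Pack.near_trans (hb.1.2 w) (Pack.near_symm (hb₀.1.2 w))
    · intro b _ b' _ h
      simpa using h

theorem rigid_box_neg {m : S → ℤ} (h : P.deg m < 0) : (P.box ⊤ m).card ≤ 1 := by
  rw [Finset.card_le_one]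
  have h0 : ∀ x ∈ P.box ⊤ m, x = 0 := by
    intro x hx
    rw [P.mem_box] at hx
    by_contra hx0
    have h1 := P.dg_span x hx0
    have h2 : ∑ v, (P.d v : ℤ) * P.lev v x ≤ P.deg m :=
      Finset.sum_le_sum fun v _ => mul_le_mul_of_nonneg_left ((hx.2 v).resolve_left hx0)
        (by positivity)
    have h3 : (0 : ℤ) ≤ P.dg (Ideal.span {x}) := by positivity
    omega
  intro x hx y hy
  rw [h0 x hx, h0 y hy]

open scoped Classical in
/-- the potential of a box at a point outside -/
theorem rigid_UB {l : S → ℤ} {D : ℕ} (hD : P.deg l = D) (hc₀ : P.c₀ ≤ D) (hχ : P.χ = 1)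
    (x₀ y : R) (hy : y ∉ P.cell ⊤ l fun _ => x₀) (c₁ : ℕ)
    (hc₁ : ∀ m : S → ℤ, ((P.box (⊤ : Ideal R) m).card : ℝ) ≤
      max ((P.q : ℝ) ^ (P.deg m + 1)) ((P.q : ℝ) ^ c₁)) :
    ∃ H : ℕ, 1 ≤ H ∧ (∀ b ∈ P.cell ⊤ l fun _ => x₀, P.ln y b ≤ D + H) ∧
      (P.q : ℝ) ^ (D + 1) * (D - P.cc) + ((P.q : ℝ) ^ (D + 1) - Fintype.card S) * H -
        (Fintype.card S * (P.q : ℝ) ^ c₁ + ∑ v, (P.d v : ℝ)) * (D + 1) ≤
        ∑ b ∈ P.cell ⊤ l fun _ => x₀, P.ln y b := by
  set B := P.cell (⊤ : Ideal R) l fun _ => x₀ with hB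
  have hx₀ : x₀ ∈ B := by
    rw [hB, P.mem_cell]
    exact ⟨trivial, fun v => P.near_refl _ _ _⟩
  have hyx : y ≠ x₀ := fun h => hy (h ▸ hx₀)
  have hBcard : (B.card : ℝ) = (P.q : ℝ) ^ (D + 1) := by
    have h := P.card_cell (I := ⊤) top_ne_bot (m := l)
      (by rw [P.dg_top, hD]; push_cast; omega) (fun _ => x₀)
    rw [← hB] at h
    rw [h, P.dg_top, hD, hχ, ← zpow_natCast]
    congr 1
  set hh : S → ℕ := fun v => (P.lev v (y - x₀) - l v).toNat with hhh
  set H : ℕ := ∑ v, P.d v * hh v with hH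
  set t : S → R → ℤ := fun v b => if P.Near v (l v) y x₀ then l v - P.lev v (y - b) else 0 with ht
  -- levels
  have hlev : ∀ b ∈ B, ∀ v, P.lev v (y - b) = l v + hh v - t v b ∧ 0 ≤ t v b := by
    intro b hb v
    have hb' := hb
    rw [hB, P.mem_cell] at hb'
    have hby : y ≠ b := fun h => hy (h ▸ hb)
    by_cases hn : P.Near v (l v) y x₀
    · have h1 := hn.resolve_left hyx
      have h2 : hh v = 0 := by
        rw [hhh]
        simp only
        omega
      have h3 : P.Near v (l v) y b := Pack.near_trans hn (Pack.near_symm (hb'.2 v))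
      have h4 := h3.resolve_left hby
      rw [ht, h2]
      simp only [if_pos hn]
      constructor
      · push_cast; ring
      · omega
    · have h1 : l v < P.lev v (y - x₀) := by
        by_contra hcon
        exact hn (Or.inr (not_lt.mp hcon))
      have h2 : (hh v : ℤ) = P.lev v (y - x₀) - l v := by
        rw [hhh]
        simp only
        omega
      have h3 : P.lev v (y - b) = P.lev v (y - x₀) := by
        rw [P.lev_sub_comm v y b, P.lev_sub_comm v y x₀]
        have h4 := P.lev_eq_of_near (v := v) (l := l v) (x := x₀) (x' := b) (y := y)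
          (Pack.near_symm (hb'.2 v)) (fun h5 => hn (Pack.near_symm h5))
        exact h4.symm
      rw [ht]
      simp only [if_neg hn]
      rw [h3, h2]
      constructor
      · ring
      · exact le_refl _
  have hln : ∀ b ∈ B, P.ln y b = D + H - ∑ v, (P.d v : ℝ) * t v b := by
    intro b hb
    have hby : y ≠ b := fun h => hy (h ▸ hb)
    have h1 : ∑ v, (P.d v : ℤ) * P.lev v (y - b) = D + H - ∑ v, (P.d v : ℤ) * t v b := by
      rw [← hD, hH]
      unfold Pack.deg
      push_cast
      rw [← Finset.sum_add_distrib, ← Finset.sum_sub_distrib]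
      refine Finset.sum_congr rfl fun v _ => ?_
      rw [(hlev b hb v).1]
      ring
    rw [P.ln_eq_sum hby]
    exact_mod_cast h1
  have htsum : ∀ b ∈ B, ∀ v, (P.d v : ℤ) * t v b ≤ D + H := by
    intro b hb v
    have h1 := P.ln_nonneg y b
    rw [hln b hb] at h1
    have h2 : (P.d v : ℝ) * t v b ≤ ∑ v, (P.d v : ℝ) * t v b :=
      Finset.single_le_sum (f := fun v => (P.d v : ℝ) * (t v b : ℝ)) (fun w _ =>
        mul_nonneg (by positivity) (by exact_mod_cast (hlev b hb w).2)) (Finset.mem_univ v)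
    have h3 : (P.d v : ℝ) * t v b ≤ D + H := by linarith
    exact_mod_cast h3
  have hH1 : 1 ≤ H := by
    have h1 : ∃ v, ¬ P.Near v (l v) y x₀ := by
      by_contra hcon
      push Not at hcon
      exact hy (P.mem_cell.mpr ⟨trivial, hcon⟩)
    obtain ⟨v, hv⟩ := h1
    have h2 : l v < P.lev v (y - x₀) := by
      by_contra hcon
      exact hv (Or.inr (not_lt.mp hcon))
    have h3 : 1 ≤ hh v := by
      rw [hhh]
      simp only
      omega
    have h4 := P.one_le_d v
    calc 1 ≤ P.d v * hh v := Nat.one_le_iff_ne_zero.mpr (by positivity)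
      _ ≤ H := Finset.single_le_sum (f := fun v => P.d v * hh v) (fun _ _ => Nat.zero_le _)
        (Finset.mem_univ v)
  refine ⟨H, hH1, fun b hb => ?_, ?_⟩
  · rw [hln b hb]
    have : 0 ≤ ∑ v, (P.d v : ℝ) * (t v b : ℝ) := Finset.sum_nonneg fun v _ =>
      mul_nonneg (by positivity) (by exact_mod_cast (hlev b hb v).2)
    linarith
  · -- the defect at `v`
    have hdef : ∀ v, (P.d v : ℝ) * ∑ b ∈ B, (t v b : ℝ) ≤
        (P.q : ℝ) ^ (D + 1) * ((P.d v : ℝ) / ((P.q : ℝ) ^ P.d v - 1)) +
          ((P.q : ℝ) ^ c₁ * D + H + P.d v) := by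
      intro v
      have hd := P.one_le_d v
      have hQ : 1 < (P.q : ℝ) ^ P.d v := one_lt_pow₀ P.one_lt_q' (by omega)
      have hQ' : 0 < (P.q : ℝ) ^ P.d v - 1 := by linarith
      obtain ⟨T, hT⟩ : ∃ T : ℕ, T = (D + H) / P.d v := ⟨_, rfl⟩
      obtain ⟨K, hK⟩ : ∃ K : ℕ, K = D / P.d v := ⟨_, rfl⟩
      have hKT : K ≤ T := by rw [hT, hK]; exact Nat.div_le_div_right (by omega)
      have hKd : K * P.d v ≤ D := by rw [hK]; exact Nat.div_mul_le_self _ _
      have hTd : T * P.d v ≤ D + H := by rw [hT]; exact Nat.div_mul_le_self _ _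
      have hKd' : D < K * P.d v + P.d v := by
        rw [hK]
        have := Nat.lt_div_mul_add (a := D) (b := P.d v) (by omega)
        exact this
      -- counting
      have h1 : ∑ b ∈ B, (t v b : ℝ) ≤
          ∑ i ∈ Icc 1 T, ((B.filter fun b => P.Near v (l v - i) y b).card : ℝ) := by
        have h2 : ∀ b ∈ B, (t v b : ℝ) ≤
            ∑ i ∈ Icc 1 T, (if P.Near v (l v - (i : ℕ)) y b then (1 : ℝ) else 0) := by
          intro b hb
          by_cases hn : P.Near v (l v) y x₀
          · have h3 := (hlev b hb v).2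
            obtain ⟨s, hs⟩ := Int.eq_ofNat_of_zero_le h3
            have h4 := htsum b hb v
            have h5 : s ≤ T := by
              rw [hT, Nat.le_div_iff_mul_le (by omega)]
              rw [hs] at h4
              have : ((s * P.d v : ℕ) : ℤ) ≤ ((D + H : ℕ) : ℤ) := by push_cast; linarith
              exact_mod_cast this
            have h6 : t v b = l v - P.lev v (y - b) := by
              rw [ht]; simp only [if_pos hn]
            rw [Finset.sum_ite, Finset.sum_const_zero, add_zero, Finset.sum_const, nsmul_eq_mul,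
              mul_one]
            have h7 : Icc 1 s ⊆ (Icc 1 T).filter fun i : ℕ => P.Near v (l v - (i : ℕ)) y b := by
              intro i hi
              rw [Finset.mem_Icc] at hi
              rw [Finset.mem_filter, Finset.mem_Icc]
              refine ⟨⟨hi.1, hi.2.trans h5⟩, Or.inr ?_⟩
              omega
            have h8 := Finset.card_le_card h7
            rw [Nat.card_Icc, Nat.add_sub_cancel] at h8
            rw [hs]
            exact_mod_cast h8
          · have h3 : t v b = 0 := by rw [ht]; simp only [if_neg hn]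
            rw [h3]
            push_cast
            exact Finset.sum_nonneg fun i _ => by split_ifs <;> norm_num
        refine (Finset.sum_le_sum h2).trans ?_
        rw [Finset.sum_comm]
        refine Finset.sum_le_sum fun i _ => ?_
        rw [Finset.sum_boole]
      have h2 : ∀ i ∈ Icc 1 T, ((B.filter fun b => P.Near v (l v - (i : ℕ)) y b).card : ℝ) ≤
          if i ≤ K then (P.q : ℝ) ^ (D + 1 - i * P.d v) + (P.q : ℝ) ^ c₁ else 1 := by
        intro i hi
        rw [Finset.mem_Icc] at hi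
        have h3 : ((B.filter fun b => P.Near v (l v - (i : ℕ)) y b).card : ℝ) ≤
            ((P.box ⊤ (Function.update l v (l v - (i : ℕ)))).card : ℝ) := by
          exact_mod_cast rigid_card_near P l x₀ y v i
        have h4 : P.deg (Function.update l v (l v - (i : ℕ))) = D - i * P.d v := by
          rw [P.deg_update, hD]; ring
        split_ifs with hiK
        · refine h3.trans ((hc₁ _).trans ?_)
          have h5 : i * P.d v ≤ D := (Nat.mul_le_mul_right _ hiK).trans hKd
          have h6 : P.deg (Function.update l v (l v - (i : ℕ))) + 1 =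
              ((D + 1 - i * P.d v : ℕ) : ℤ) := by
            rw [h4, Nat.cast_sub (by omega)]; push_cast; ring
          rw [h6, zpow_natCast]
          have h7 : 0 ≤ (P.q : ℝ) ^ (D + 1 - i * P.d v) := by positivity
          have h8 : 0 ≤ (P.q : ℝ) ^ c₁ := by positivity
          exact max_le (by linarith) (by linarith)
        · refine h3.trans ?_
          have h5 : P.deg (Function.update l v (l v - (i : ℕ))) < 0 := by
            rw [h4]
            have h6 : (K + 1) * P.d v ≤ i * P.d v := Nat.mul_le_mul_right _ (by omega)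
            have h7 : D < i * P.d v := by
              have : (K + 1) * P.d v = K * P.d v + P.d v := by ring
              omega
            have h8 : (D : ℤ) < i * P.d v := by exact_mod_cast h7
            omega
          exact_mod_cast rigid_box_neg P h5
      have h3 := h1.trans (Finset.sum_le_sum h2)
      rw [Finset.sum_ite] at h3
      have h4 : (Icc 1 T).filter (fun i => i ≤ K) = Icc 1 K := by
        ext i
        rw [Finset.mem_filter, Finset.mem_Icc, Finset.mem_Icc]
        omega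
      have h5 : (Icc 1 T).filter (fun i => ¬ i ≤ K) = Icc (K + 1) T := by
        ext i
        rw [Finset.mem_filter, Finset.mem_Icc, Finset.mem_Icc]
        omega
      rw [h4, h5, Finset.sum_const, Nat.card_Icc, nsmul_eq_mul, mul_one, Finset.sum_add_distrib,
        Finset.sum_const, Nat.card_Icc, Nat.add_sub_cancel, nsmul_eq_mul] at h3
      have h6 := geom_tel (q := (P.q : ℝ)) (d := P.d v) (j := D + 1) K (by omega)
      rw [← Finset.sum_mul] at h6
      have h7 : ∑ i ∈ Icc 1 K, (P.q : ℝ) ^ (D + 1 - i * P.d v) ≤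
          (P.q : ℝ) ^ (D + 1) / ((P.q : ℝ) ^ P.d v - 1) := by
        rw [le_div_iff₀ hQ', h6]
        have : 0 ≤ (P.q : ℝ) ^ (D + 1 - K * P.d v) := by positivity
        linarith
      have h8 : ((T + 1 - (K + 1) : ℕ) : ℝ) * P.d v ≤ H + P.d v := by
        have h9 : (T + 1 - (K + 1)) * P.d v ≤ H + P.d v := by
          have h10 : T + 1 - (K + 1) = T - K := by omega
          rw [h10, Nat.sub_mul]
          omega
        exact_mod_cast h9
      have h9 : (K : ℝ) * P.d v ≤ D := by exact_mod_cast hKd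
      have hdpos : (0 : ℝ) < P.d v := by exact_mod_cast (by omega : 0 < P.d v)
      have h10 : (P.d v : ℝ) * ∑ b ∈ B, (t v b : ℝ) ≤ P.d v *
          ((P.q : ℝ) ^ (D + 1) / ((P.q : ℝ) ^ P.d v - 1) + K * (P.q : ℝ) ^ c₁ +
            ((T + 1 - (K + 1) : ℕ) : ℝ)) := by
        refine mul_le_mul_of_nonneg_left ?_ hdpos.le
        linarith
      have h11 : (K : ℝ) * P.d v * (P.q : ℝ) ^ c₁ ≤ D * (P.q : ℝ) ^ c₁ :=
        mul_le_mul_of_nonneg_right h9 (by positivity)
      have h12 : (P.d v : ℝ) * ((P.q : ℝ) ^ (D + 1) / ((P.q : ℝ) ^ P.d v - 1) +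
          K * (P.q : ℝ) ^ c₁ + ((T + 1 - (K + 1) : ℕ) : ℝ)) =
          (P.q : ℝ) ^ (D + 1) * ((P.d v : ℝ) / ((P.q : ℝ) ^ P.d v - 1)) +
            K * P.d v * (P.q : ℝ) ^ c₁ + ((T + 1 - (K + 1) : ℕ) : ℝ) * P.d v := by ring
      rw [h12] at h10
      linarith
    have h1 : ∑ b ∈ B, P.ln y b = (P.q : ℝ) ^ (D + 1) * (D + H) -
        ∑ v, (P.d v : ℝ) * ∑ b ∈ B, (t v b : ℝ) := by
      rw [Finset.sum_congr rfl hln, Finset.sum_sub_distrib, Finset.sum_const, nsmul_eq_mul, hBcard,
        Finset.sum_comm]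
      congr 1
      refine Finset.sum_congr rfl fun v _ => ?_
      rw [Finset.mul_sum]
    have h2 := Finset.sum_le_sum fun v (_ : v ∈ (Finset.univ : Finset S)) => hdef v
    rw [Finset.sum_add_distrib, ← Finset.mul_sum] at h2
    have hcc : ∑ v, (P.d v : ℝ) / ((P.q : ℝ) ^ P.d v - 1) = P.cc := rfl
    rw [hcc, Finset.sum_add_distrib, Finset.sum_const, Finset.card_univ, nsmul_eq_mul] at h2
    rw [h1]
    have h3 : 0 ≤ ∑ v, (P.d v : ℝ) := Finset.sum_nonneg fun v _ => by positivity
    have h4 : (0 : ℝ) ≤ D := by positivity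
    have h5 : 0 ≤ (Fintype.card S : ℝ) * (P.q : ℝ) ^ c₁ := by positivity
    have h6 : 0 ≤ (∑ v, (P.d v : ℝ)) * D := mul_nonneg h3 h4
    nlinarith

theorem rigid_lg {β : ℝ} (hβpos : 0 < β) : -(P.lg β) * β ≤ 3 * Real.sqrt β := by
  have hx := Real.sqrt_pos.mpr hβpos
  have hxx : β = Real.sqrt β * Real.sqrt β := (Real.mul_self_sqrt hβpos.le).symm
  have h2 : Real.log β = 2 * Real.log (Real.sqrt β) := by
    conv_lhs => rw [hxx]
    rw [Real.log_mul hx.ne' hx.ne']; ring
  have h3 : -Real.log (Real.sqrt β) ≤ 1 / Real.sqrt β := by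
    rw [← Real.log_inv]
    have := Real.log_le_sub_one_of_pos (inv_pos.mpr hx)
    rw [one_div]; linarith
  have h4 : -Real.log β * β ≤ 2 * Real.sqrt β := by
    rw [h2]
    have h5 : -(2 * Real.log (Real.sqrt β)) * β = 2 * (-Real.log (Real.sqrt β)) * β := by ring
    rw [h5]
    have h6 : 2 * (-Real.log (Real.sqrt β)) * β ≤ 2 * (1 / Real.sqrt β) * β :=
      mul_le_mul_of_nonneg_right (by linarith) hβpos.le
    refine h6.trans (le_of_eq ?_)
    have h7 : 1 / Real.sqrt β * β = Real.sqrt β := by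
      rw [one_div, inv_mul_eq_div, div_eq_iff hx.ne']
      exact hxx
    rw [mul_assoc, h7]
  have hlq : 2 / 3 ≤ Real.log P.q := by
    have h5 : Real.log 2 ≤ Real.log P.q :=
      Real.log_le_log (by norm_num) (by exact_mod_cast P.two_le_q)
    have := Real.log_two_gt_d9
    linarith
  unfold Pack.lg Real.logb
  have h5 : -(Real.log β / Real.log P.q) * β = (-Real.log β * β) / Real.log P.q := by ring
  rw [h5, div_le_iff₀ (by linarith)]
  have h6 := mul_le_mul_of_nonneg_left hlq hx.le
  linarith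

end

theorem stmt_Rigid (hBall : Stmt_Ball.{u}) (hUpper : Stmt_Upper.{u}) (hChi : Stmt_Chi.{u})
    (hPot : Stmt_Pot.{u}) (hMer : Stmt_Mer.{u}) : Stmt_Rigid.{u} := by
  intro R _ _ _ _ S _ _ P A hA
  classical
  have hopt : ∀ j, ∃ A, P.Opt j A := fun j => ⟨A j, hA j⟩
  have hχ := hChi R S P hopt
  obtain ⟨hP1, hP2, hP3⟩ := hPot R S P
  obtain ⟨C, hC, -, -, -, hM, -⟩ := hMer R S P
  obtain ⟨c₁, hc₁⟩ := P.exists_card_box_le
  have hc₁' : ∀ m : S → ℤ, ((P.box (⊤ : Ideal R) m).card : ℝ) ≤
      max ((P.q : ℝ) ^ (P.deg m + 1)) ((P.q : ℝ) ^ c₁) := by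
    intro m
    have h := hc₁ ⊤ top_ne_bot m
    rw [P.dg_top, hχ] at h
    simpa using h
  set s : ℝ := (Fintype.card S : ℝ) with hs
  have hs1 : 1 ≤ s := by
    rw [hs]
    exact_mod_cast Fintype.card_pos (α := S)
  set β₀ : ℝ := (1 / (4 * (3 + C))) ^ 2 with hβ₀
  have hβ₀pos : 0 < β₀ := by positivity
  set τ : ℝ := β₀ / s with hτ
  have hτpos : 0 < τ := by positivity
  obtain ⟨e, j₁, he, hB⟩ := hBall R S P τ hτpos
  obtain ⟨j₂, hU⟩ := hUpper R S P hopt (min e (1 / 4)) (lt_min he (by norm_num))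
  set C' : ℝ := s * (P.q : ℝ) ^ c₁ + ∑ v, (P.d v : ℝ) with hC'
  have hC'0 : 0 ≤ C' := by
    have : 0 ≤ ∑ v, (P.d v : ℝ) := Finset.sum_nonneg fun v _ => by positivity
    positivity
  -- large `j`
  obtain ⟨j₃, hj₃⟩ : ∃ j₃ : ℕ, ∀ j ≥ j₃, 2 * (s + C' * j) + 1 + 2 * s ≤ (P.q : ℝ) ^ j := by
    have h1 := tendsto_pow_const_div_const_pow_of_one_lt 1 P.one_lt_q'
    have h0 := tendsto_pow_const_div_const_pow_of_one_lt 0 P.one_lt_q'
    have h2 := (h1.const_mul (2 * C')).add (h0.const_mul (4 * s + 1))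
    rw [mul_zero, mul_zero, add_zero] at h2
    obtain ⟨j₃, hj₃⟩ := Filter.eventually_atTop.mp (h2.eventually_le_const one_pos)
    refine ⟨j₃, fun j hj => ?_⟩
    have h3 := hj₃ j hj
    have h4 : 0 < (P.q : ℝ) ^ j := by
      have := P.q_pos'
      positivity
    simp only [pow_one, pow_zero] at h3
    rw [mul_div_assoc', mul_div_assoc', ← add_div, div_le_one h4] at h3
    linarith
  refine ⟨max (max j₁ j₂) (max j₃ (P.c₀ + 1)), fun j hj => ?_⟩
  have hj1 : j₁ ≤ j := le_trans (le_trans (le_max_left _ _) (le_max_left _ _)) hj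
  have hj2 : j₂ ≤ j := le_trans (le_trans (le_max_right _ _) (le_max_left _ _)) hj
  have hj3 : j₃ ≤ j := le_trans (le_trans (le_max_left _ _) (le_max_right _ _)) hj
  have hj4 : P.c₀ + 1 ≤ j := le_trans (le_trans (le_max_right _ _) (le_max_right _ _)) hj
  obtain ⟨D, rfl⟩ : ∃ D, j = D + 1 := ⟨j - 1, by omega⟩
  set n : ℝ := (P.q : ℝ) ^ (D + 1) with hn
  have hnpos : 0 < n := by
    have := P.q_pos'
    positivity
  have hpotU := hU _ hj2
  have hpot : P.pot (D + 1) ≤ n * (D - P.cc + 1 / 4) := by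
    refine hpotU.trans (mul_le_mul_of_nonneg_left ?_ hnpos.le)
    rw [hχ]
    push_cast
    have := min_le_right e (1 / 4)
    linarith
  obtain ⟨l, hl, ⟨x₀, hx₀, hfar⟩, -⟩ := hB _ hj1 (A (D + 1)) (hA _) (by
    refine hpotU.trans (mul_le_mul_of_nonneg_left ?_ hnpos.le)
    have := min_le_left e (1 / 4)
    linarith)
  have hlD : P.deg l = D := by
    rw [hχ] at hl
    push_cast at hl
    omega
  set A' := A (D + 1) with hA'
  set B := P.cell (⊤ : Ideal R) l fun _ => x₀ with hBdef
  have hBcard : (B.card : ℝ) = n := by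
    have h := P.card_cell (I := ⊤) top_ne_bot (m := l)
      (by rw [P.dg_top, hlD]; push_cast; omega) (fun _ => x₀)
    rw [← hBdef] at h
    rw [h, P.dg_top, hlD, hχ, hn, ← zpow_natCast]
    congr 1
  have hAcard : (A'.card : ℝ) = n := by
    rw [hA', (hA _).card]; push_cast; rfl
  have hcardAB : A'.card = B.card := by
    have : (A'.card : ℝ) = B.card := by rw [hAcard, hBcard]
    exact_mod_cast this
  suffices hAB : A' = B by
    refine ⟨l, hl, fun x hx y => ?_⟩
    rw [hAB, hBdef, P.mem_cell] at hx ⊢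
    constructor
    · intro hy v
      exact Pack.near_trans (hx.2 v) (Pack.near_symm (hy.2 v))
    · intro hy
      exact ⟨trivial, fun v => Pack.near_trans (Pack.near_symm (hy v)) (hx.2 v)⟩
  by_contra hne
  set r : ℕ := (A' \ B).card with hr
  have hr' : (B \ A').card = r := by
    have h1 := Finset.card_sdiff_add_card_inter A' B
    have h2 := Finset.card_sdiff_add_card_inter B A'
    rw [Finset.inter_comm B A'] at h2
    omega
  have hr1 : 1 ≤ r := by
    by_contra hcon
    have h0 : r = 0 := by omega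
    have h1 : A' ⊆ B := by
      rw [← Finset.sdiff_eq_empty_iff_subset, ← Finset.card_eq_zero]
      exact h0
    exact hne (Finset.eq_of_subset_of_card_le h1 hcardAB.symm.le)
  have hrβ : (r : ℝ) ≤ β₀ * n := by
    have h1 : A' \ B ⊆ Finset.univ.biUnion fun v => A'.filter fun b => ¬ P.Near v (l v) x₀ b := by
      intro y hy
      rw [Finset.mem_sdiff, hBdef, P.mem_cell] at hy
      obtain ⟨hyA, hyB⟩ := hy
      have h2 : ∃ v, ¬ P.Near v (l v) y x₀ := by
        by_contra hcon
        push Not at hcon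
        exact hyB ⟨trivial, hcon⟩
      obtain ⟨v, hv⟩ := h2
      rw [Finset.mem_biUnion]
      exact ⟨v, Finset.mem_univ v, Finset.mem_filter.mpr
        ⟨hyA, fun h => hv (Pack.near_symm h)⟩⟩
    have h2 : (r : ℝ) ≤ ∑ v, ((A'.filter fun b => ¬ P.Near v (l v) x₀ b).card : ℝ) := by
      exact_mod_cast (Finset.card_le_card h1).trans Finset.card_biUnion_le
    refine h2.trans ((Finset.sum_le_sum fun v _ => hfar v).trans ?_)
    rw [Finset.sum_const, Finset.card_univ, nsmul_eq_mul, ← hs, ← hn, hτ]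
    have : s * (β₀ / s * n) = β₀ * n := by field_simp
    rw [this]
  have hβ₀1 : β₀ ≤ 1 / 4 := by
    have h1 : 1 / (4 * (3 + C)) ≤ 1 / 2 := by
      apply one_div_le_one_div_of_le <;> linarith
    have h2 : 0 ≤ 1 / (4 * (3 + C)) := by positivity
    rw [hβ₀]
    nlinarith
  have hbig := hj₃ _ hj3
  rw [← hn] at hbig
  push_cast at hbig
  -- the sum over `A \ B`
  have hb : ∀ y ∈ A' \ B, ∑ a ∈ A' \ B, P.ln y a ≤
      n / 4 - (n - s - r) + C' * (D + 1) + r * D := by
    intro y hy
    rw [Finset.mem_sdiff] at hy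
    obtain ⟨H, hH1, hHb, hHU⟩ := rigid_UB P hlD (by omega) hχ x₀ y hy.2 c₁ hc₁'
    rw [← hBdef] at hHb hHU
    rw [← hs, ← hn, ← hC'] at hHU
    have h1 := hP1 (D + 1) A' (hA _) y hy.1
    have h2 : ∑ a ∈ A' \ B, P.ln y a + ∑ a ∈ A' ∩ B, P.ln y a = ∑ a ∈ A', P.ln y a :=
      by rw [add_comm]; exact Finset.sum_inter_add_sum_sdiff A' B _
    have h3 : ∑ a ∈ B \ A', P.ln y a + ∑ a ∈ A' ∩ B, P.ln y a = ∑ a ∈ B, P.ln y a := by
      rw [add_comm, Finset.inter_comm]
      exact Finset.sum_inter_add_sum_sdiff B A' _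
    have h4 : ∑ a ∈ B \ A', P.ln y a ≤ r * (D + H) := by
      have h5 : ∑ a ∈ B \ A', P.ln y a ≤ ∑ a ∈ B \ A', ((D : ℝ) + H) :=
        Finset.sum_le_sum fun b hb => hHb b (Finset.mem_sdiff.mp hb).1
      rwa [Finset.sum_const, hr', nsmul_eq_mul] at h5
    have h5 : (1 : ℝ) ≤ H := by exact_mod_cast hH1
    have h6 : 0 ≤ n - s - r := by
      have : (r : ℝ) ≤ 1 / 4 * n := hrβ.trans (mul_le_mul_of_nonneg_right hβ₀1 hnpos.le)
      have h7 : 0 ≤ C' * ((D : ℝ) + 1) := by positivity
      linarith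
    have h7 : (n - s - r) * 1 ≤ (n - s - r) * H := mul_le_mul_of_nonneg_left h5 h6
    have h8 : n * (D - P.cc + 1 / 4) = n * (D - P.cc) + n / 4 := by ring
    nlinarith
  have hsum := Finset.sum_le_sum hb
  rw [Finset.sum_const, nsmul_eq_mul, ← hr] at hsum
  have hen := hM (A' \ B) (Finset.card_pos.mp (by omega))
  rw [← hr] at hen
  have hrpos : (0 : ℝ) < r := by exact_mod_cast hr1
  have h1 : (r : ℝ) * (P.lg r - C) ≤ n / 4 - (n - s - r) + C' * (D + 1) + r * D := by
    have h2 : (r : ℝ) * ((r : ℝ) * (P.lg r - C)) ≤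
        r * (n / 4 - (n - s - r) + C' * (D + 1) + r * D) := by
      refine le_trans (le_of_eq ?_) (hen.trans hsum)
      ring
    exact le_of_mul_le_mul_left h2 hrpos
  -- logarithms
  have hlgn : P.lg n = D + 1 := by
    unfold Pack.lg
    rw [hn, Real.logb_pow, Real.logb_self_eq_one P.one_lt_q', mul_one]
    push_cast; ring
  set β : ℝ := r / n with hβ
  have hβpos : 0 < β := by positivity
  have hββ₀ : β ≤ β₀ := by
    rw [hβ, div_le_iff₀ hnpos]; exact hrβ
  have hrβn : (r : ℝ) = β * n := by rw [hβ]; field_simp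
  have hlgr : P.lg r = P.lg β + (D + 1) := by
    rw [hrβn, ← hlgn]
    unfold Pack.lg
    rw [Real.logb_mul hβpos.ne' hnpos.ne']
  have hlgβ : -(P.lg β) * β ≤ 3 * Real.sqrt β := rigid_lg P hβpos
  have hsβ : Real.sqrt β ≤ 1 / (4 * (3 + C)) := by
    rw [Real.sqrt_le_left (by positivity)]
    exact hββ₀
  have hβs : β ≤ Real.sqrt β := by
    have h2 : β ≤ 1 := by linarith
    rw [Real.le_sqrt' hβpos, sq]
    exact mul_le_of_le_one_left hβpos.le h2
  have h2 : β * (C - P.lg β) ≤ 1 / 4 := by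
    have h3 : β * (C - P.lg β) ≤ (3 + C) * Real.sqrt β := by nlinarith
    refine h3.trans ?_
    calc (3 + C) * Real.sqrt β ≤ (3 + C) * (1 / (4 * (3 + C))) :=
          mul_le_mul_of_nonneg_left hsβ (by positivity)
      _ = 1 / 4 := by field_simp
  rw [hlgr] at h1
  have h3 : (r : ℝ) * (C - P.lg β) ≤ n / 4 := by
    rw [hrβn]
    have := mul_le_mul_of_nonneg_right h2 hnpos.le
    linarith
  nlinarith

end Pool.Agent.Work.MP_b29d7f_nt.FF

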